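import Pool.Agent.Work.MP_a98e4e_ag.P.Main
import Pool.Agent.Work.MP_a98e4e_ag.E.Defs

/-!
# Module P, part 10: cone points of `e_8(R)` with given components of degree `3` and `2`
-/

set_option linter.unusedSectionVars false

namespace Pool.Agent.Licci.P

open scoped BigOperators
open U (Sup)

variable {A : Type*} [CommRing A]

theorem kf_eq_kap (x y : E8 A) : kf x y = kap x y := by
  rw [kap_apply]
  rfl

theorem cone_iff_kap {p : E8 A} : Cone p ↔ ∀ x, br p (br p x) = (-2 * kap p x) • p := by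
  unfold Cone
  refine forall_congr' fun x => ?_
  rw [kf_eq_kap, neg_mul]

/-- cone points with a unit among the coordinates of degree `3` and with equal components of degree
`≥ 0` are equal -/
theorem eq_of_cone {p q : E8 A} [Algebra ℚ A] (hp : Cone p) (hq : Cone q)
    (h : ∀ m, 0 ≤ zdg m → p m = q m) (i : Fin 8) (hu : IsUnit (p (ix (i : ℕ)))) : p = q :=
  cone_unique (cone_iff_kap.1 hp) (cone_iff_kap.1 hq) h i hu

variable {R : Type*} [CommRing R] [IsDomain R] [Algebra ℚ R]

/-- **Module P.**  A cone point `p` of `e_8(R)` with given components `f` and `ζ` of degree `3` and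
`2`, where `f` has grade `≥ 6` and `ι_f ζ = 0`. -/
theorem exists_cone (f : Vec R) (hreg : HasReg (fL f) 6) (ζ : Fin 8 → Fin 8 → R)
    (h0 : ∀ i, ζ i i = 0) (h1 : ∀ i j, ζ i j = - ζ j i) (hz : ∀ j, ∑ i, f i * ζ i j = 0) :
    ∃ p : E8 R, p3 p = f ∧ (∀ i j, w2 p i j = ζ i j) ∧ Cone p := by
  obtain ⟨p, h3, h2, hc, -⟩ := exists_cone' (K := FractionRing R)
    (IsFractionRing.injective R (FractionRing R)) f hreg ζ h0 h1 hz
  exact ⟨p, h3, h2, cone_iff_kap.2 hc⟩

end Pool.Agent.Licci.P
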