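import Pool.Agent.Work.MP_a98e4e_ag.P.Brk

/-!
# Module P, part 6: Lie algebra computations
-/

set_option linter.unusedSectionVars false

namespace Pool.Agent.Licci.P

open scoped BigOperators
open U (Sup)

section

variable {A : Type*} [CommRing A]

theorem br_assoc_of {a F m : E8 A} (h : br a F = 0) : br a (br m F) = br (br a m) F := by
  rw [jacobi, h, br_zero_right, add_zero]

/-- comparison in degree `1` -/
theorem step_one {n m F : E8 A} (h : br n F = br m F) :
    br n (br n F) - br m (br m F) = br (br (n - m) m) F := by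
  have ha : br (n - m) F = 0 := by rw [br_sub_left, h, sub_self]
  rw [← br_assoc_of ha, br_sub_left, h]

end

section

variable {A : Type*} [CommRing A] [Algebra ℚ A]

/-- the component of degree `1` of `exp (n₁ + n₂ + n₃) F` -/
def q1 (F n₁ n₂ : E8 A) : E8 A := br n₂ F + algebraMap ℚ A (1 / 2) • br n₁ (br n₁ F)

/-- the component of degree `0` of `exp (n₁ + n₂) F` -/
def q0 (F n₁ n₂ : E8 A) : E8 A :=
  algebraMap ℚ A (1 / 2) • (br n₁ (br n₂ F) + br n₂ (br n₁ F)) +
    algebraMap ℚ A (1 / 6) • br n₁ (br n₁ (br n₁ F))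

/-- comparison in degree `0` -/
theorem step_two {F n m n₂ m₂ : E8 A} (h : br n F = br m F) (h2 : q1 F n n₂ = q1 F m m₂) :
    ∃ c : E8 A, q0 F n n₂ - q0 F m m₂ = br c F ∧
      c = br ((n₂ - m₂) + algebraMap ℚ A (1 / 2) • br (n - m) m) m +
        algebraMap ℚ A (1 / 6) • br (n + m) (br (n - m) m) +
        algebraMap ℚ A (1 / 2) • (br n n₂ - br m m₂) := by
  refine ⟨_, ?_, rfl⟩
  set a := n - m with ha
  set b := br a m with hb
  set Z := br m F with hZ
  set hf := algebraMap ℚ A (1 / 2) with hhf
  set sx := algebraMap ℚ A (1 / 6) with hsx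
  have e2 : hf + hf = 1 := by
    rw [hhf, ← map_add]
    norm_num
  have e6 : sx + sx + sx = hf := by
    rw [hhf, hsx, ← map_add, ← map_add]
    norm_num
  have aF : br a F = 0 := by rw [ha, br_sub_left, h, sub_self]
  have bF : br b F = br a Z := by rw [hb, ← br_assoc_of aF]
  -- `[d, F] = - ½ [a, Z]`
  have dF : br (n₂ - m₂) F = - (hf • br a Z) := by
    unfold q1 at h2
    rw [h] at h2
    rw [br_sub_left, ha, br_sub_left, smul_sub]
    have := h2
    rw [← sub_eq_zero] at this ⊢
    rw [← this]
    abel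
  have eF : br ((n₂ - m₂) + hf • b) F = 0 := by
    rw [br_add_left, dF, br_smul_left, bF]
    abel
  have eZ : br ((n₂ - m₂) + hf • b) Z = br (br ((n₂ - m₂) + hf • b) m) F := br_assoc_of eF
  -- `[m, [a, Z]] = [[m, b], F] + [b, Z]`
  have maZ : br m (br a Z) = br (br m b) F + br b Z := by
    rw [← bF, jacobi]
  have anZ : br a (br n Z) = br b Z + br (br n b) F + br b Z := by
    have hn : br a n = b := by
      rw [hb, ha, br_sub_left, br_sub_left]
      have h1 := br_skew n m
      have h2 : br n n = 0 := br_self n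
      have h3 : br m m = 0 := br_self m
      rw [h2, h3, h1]
      abel
    rw [jacobi a n Z, hn, ← bF, jacobi n b F, h]
    abel
  have hnn : br n (br n F) - br m (br m F) = br a Z := by
    rw [h, ← hZ, ha, br_sub_left]
  -- cubic terms
  have cub : br n (br n (br n F)) - br m (br m (br m F)) =
      br b Z + br b Z + br b Z + br (br (n + m) b) F := by
    have e1 : br n (br n (br n F)) - br m (br m (br m F)) = br a (br n Z) + br m (br a Z) := by
      rw [h, ← hZ, ha, br_sub_left, br_sub_left, br_sub_right]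
      abel
    rw [e1, anZ, maZ, br_add_left n m, br_add_left]
    abel
  have quad : (br n (br n₂ F) + br n₂ (br n F)) - (br m (br m₂ F) + br m₂ (br m F)) =
      br (br n n₂ - br m m₂) F + (br (n₂ - m₂) Z + br (n₂ - m₂) Z) := by
    rw [jacobi n n₂ F, jacobi m m₂ F, h, ← hZ, br_sub_left, br_sub_left]
    abel
  have main : q0 F n n₂ - q0 F m m₂ =
      hf • (br (br n n₂ - br m m₂) F + (br (n₂ - m₂) Z + br (n₂ - m₂) Z)) +
        sx • (br b Z + br b Z + br b Z + br (br (n + m) b) F) := by
    unfold q0
    rw [← quad, ← cub]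
    module
  have eZ' : br (n₂ - m₂) Z + hf • br b Z = br (br ((n₂ - m₂) + hf • b) m) F := by
    rw [← eZ, br_add_left, br_smul_left]
  have e3 : ∀ c1 c2 c3 : E8 A, br (c1 + sx • c2 + hf • c3) F = br c1 F + sx • br c2 F +
      hf • br c3 F := by
    intro c1 c2 c3
    rw [br_add_left (c1 + sx • c2), br_add_left c1, br_smul_left, br_smul_left]
  rw [main, e3, ← eZ']
  have x2 : ∀ X : E8 A, hf • (X + X) = X := by
    intro X
    rw [smul_add, ← add_smul, e2, one_smul]
  have x3 : ∀ X : E8 A, sx • (X + X + X) = hf • X := by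
    intro X
    rw [smul_add, smul_add, ← add_smul, ← add_smul, e6]
  rw [smul_add, smul_add sx, x2, x3]
  abel

theorem cancel_rat {r : ℚ} (hr : r ≠ 0) {X : E8 A} (h : algebraMap ℚ A r • X = 0) : X = 0 := by
  have h1 : algebraMap ℚ A r⁻¹ * algebraMap ℚ A r = 1 := by
    rw [← map_mul, inv_mul_cancel₀ hr, map_one]
  calc X = algebraMap ℚ A r⁻¹ • (algebraMap ℚ A r • X) := by rw [smul_smul, h1, one_smul]
    _ = 0 := by rw [h, smul_zero]

/-- the algebraic core of the uniqueness -/
theorem cone_core {f : Vec A} {x y : E8 A} {s : A} (hs : IsUnit s)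
    (hx : kap (V3 f) x = -s) (hyx : br y x = 0) (h : br y (br (V3 f) x) = (2 * s) • y) (i : Fin 8)
    (hi : IsUnit (f i)) : y = 0 := by
  set F : E8 A := V3 f with hF
  set κ := kap F y with hκ
  have h1 : br (br y F) x = (2 * s) • y := by
    rw [← h, jacobi y F x, hyx, br_zero_right, add_zero]
  have h2 : br F (br F x) = (2 * s) • F := by
    rw [hF, V3_cone, ← hF, hx]
    congr 1
    ring
  have h3 : br F (br y F) = (2 * κ) • F := by
    rw [br_skew y F, br_neg_right, hF, V3_cone, ← hF, ← hκ, ← neg_smul]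
    congr 1
    ring
  have h4 : br (br F x) y = -((2 * s) • y) := by rw [br_skew, h]
  have h5 : br (br F x) F = -((2 * s) • F) := by rw [br_skew, h2]
  have h6 : (2 * κ) • br F x + (6 * s) • br y F = 0 := by
    have e := congrArg (br F) h1
    rw [jacobi F (br y F) x, h3, br_smul_left, br_smul_right, br_skew (br y F) (br F x),
      jacobi (br F x) y F, h4, h5, br_neg_left, br_neg_right, br_smul_left, br_smul_right,
      br_skew F y] at e
    have e' := sub_eq_zero.2 e
    rw [← e']
    module
  have h7 : (16 * (s * κ)) • F = 0 := by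
    have e := congrArg (br F) h6
    rw [br_add_right, br_smul_right, br_smul_right, h2, h3, br_zero_right] at e
    rw [← e]
    module
  have hκ0 : κ = 0 := by
    have e := congrFun h7 (ix (i : ℕ))
    rw [Pi.smul_apply, hF, V3_apply_ix, Pi.zero_apply, smul_eq_mul] at e
    have e16 : algebraMap ℚ A (1 / 16) * (16 : A) = 1 := by
      rw [← map_ofNat (algebraMap ℚ A) 16, ← map_mul]
      norm_num
    have e1 : s * κ * f i = 0 := by
      linear_combination (algebraMap ℚ A (1 / 16)) * e - (s * κ * f i) * e16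
    exact (hs.mul_right_eq_zero).1 ((hi.mul_left_eq_zero).1 e1)
  rw [hκ0, mul_zero, zero_smul, zero_add] at h6
  have h8 : br y F = 0 := by
    obtain ⟨u, rfl⟩ := hs
    have e6 : algebraMap ℚ A (1 / 6) * (6 : A) = 1 := by
      rw [← map_ofNat (algebraMap ℚ A) 6, ← map_mul]
      norm_num
    calc br y F = ((u⁻¹ : Aˣ) : A) • algebraMap ℚ A (1 / 6) • ((6 * (u : A)) • br y F) := by
          rw [smul_smul, smul_smul]
          conv_lhs => rw [← one_smul A (br y F)]
          congr 1
          have hu := u.inv_mul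
          linear_combination (-1 : A) * hu - ((u⁻¹ : Aˣ) : A) * (u : A) * e6
      _ = 0 := by rw [h6, smul_zero, smul_zero]
  rw [h8, br_zero_left] at h1
  obtain ⟨u, rfl⟩ := hs
  have e2 : algebraMap ℚ A (1 / 2) * (2 : A) = 1 := by
    rw [← map_ofNat (algebraMap ℚ A) 2, ← map_mul]
    norm_num
  calc y = ((u⁻¹ : Aˣ) : A) • algebraMap ℚ A (1 / 2) • ((2 * (u : A)) • y) := by
        rw [smul_smul, smul_smul]
        conv_lhs => rw [← one_smul A y]
        congr 1
        have hu := u.inv_mul
        linear_combination (-1 : A) * hu - ((u⁻¹ : Aˣ) : A) * (u : A) * e2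
    _ = 0 := by rw [← h1, smul_zero, smul_zero]

theorem eb_sup (m : Fin 248) : Sup zdg (zdg m) (eb m : E8 A) := by
  intro b hb
  rw [eb_apply, if_neg]
  rintro rfl
  exact hb rfl

theorem le_three (x : E8 A) : Le zdg 3 x := fun m hm => absurd (zdg_le m) (by omega)

/-- one step of the uniqueness: if two cone points agree in degrees `> d`, `d < 0`, and some
coordinate of degree `3` is a unit, then they agree in degree `d` -/
theorem cone_step {q q' : E8 A} (hq : ∀ x, br q (br q x) = (-2 * kap q x) • q)
    (hq' : ∀ x, br q' (br q' x) = (-2 * kap q' x) • q') {d : ℤ} (hd : d < 0)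
    (h : ∀ m, d < zdg m → q m = q' m) (i : Fin 8) (hi : IsUnit (q (ix (i : ℕ)))) (m : Fin 248)
    (hm : zdg m = d) : q m = q' m := by
  have hzd : ∀ i j k : Fin 248, sc i j k ≠ 0 → zdg i + zdg j = zdg k := fun _ _ _ h => sc_zdg h
  set x : E8 A := eb (ixm i) with hx
  have hxs : Sup zdg (-3) x := by
    have := eb_sup (A := A) (ixm i)
    rwa [zdg_ixm] at this
  have hxl : Le zdg (-3) x := fun b hb => hxs b (by omega)
  set F : E8 A := V3 (p3 q) with hF
  have hFl : Le zdg 3 F := le_three F
  have hqF : ∀ b, zdg b = 3 → q b = F b := by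
    intro b hb
    obtain ⟨j, rfl⟩ := ix_surj b hb
    rw [hF, V3_apply_ix]
    rfl
  have hq'F : ∀ b, zdg b = 3 → q' b = F b := by
    intro b hb
    rw [← hqF b hb, h b (by omega)]
  set y : E8 A := fun b => if zdg b = d then q b - q' b else 0 with hy
  have hys : Sup zdg d y := fun b hb => by rw [hy]; exact if_neg hb
  have hyl : Le zdg d y := fun b hb => hys b (by omega)
  have hδl : Le zdg d (q - q') := fun b hb => by rw [Pi.sub_apply, h b hb, sub_self]
  have hδy : ∀ b, zdg b = d → (q - q') b = y b := by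
    intro b hb
    rw [hy]
    change q b - q' b = if zdg b = d then q b - q' b else 0
    rw [if_pos hb]
  have hk : kap q x = - q (ix (i : ℕ)) := kap_ixm q i
  have hk' : kap q' x = - q (ix (i : ℕ)) := by
    rw [hx, kap_ixm, h _ (by rw [zdg_lt8]; omega)]
  have hE : br (q - q') (br q x) + br q' (br (q - q') x) = (2 * q (ix (i : ℕ))) • (q - q') := by
    have e1 := hq x
    have e2 := hq' x
    rw [hk] at e1
    rw [hk'] at e2
    rw [br_sub_left, br_sub_left, br_sub_right, e1, e2]
    module
  have hyx : br y x = 0 := by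
    have hs := Sup.br hzd hys hxs
    funext b
    refine hs b ?_
    change zdg b ≠ _
    have := zdg_ge b
    omega
  have hqx : Le zdg 0 (br q x) := by
    have := Le.br hzd (le_three q) hxl
    rwa [show (3 : ℤ) + -3 = 0 by norm_num] at this
  have hFx : Le zdg 0 (br F x) := by
    have := Le.br hzd hFl hxl
    rwa [show (3 : ℤ) + -3 = 0 by norm_num] at this
  have hqx0 : ∀ b, zdg b = 0 → br q x b = br F x b := fun b hb =>
    br_top hzd (le_three q) hxl hFl hxl hqF (fun _ _ => rfl) b (by rw [hb]; norm_num)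
  have hmain : br y (br F x) = (2 * q (ix (i : ℕ))) • y := by
    funext b
    by_cases hb : zdg b = d
    · have e := congrFun hE b
      rw [Pi.add_apply, Pi.smul_apply, hδy b hb] at e
      have e1 : br (q - q') (br q x) b = br y (br F x) b :=
        br_top hzd hδl hqx hyl hFx hδy hqx0 b (by omega)
      have hδx : Le zdg (d + -3) (br (q - q') x) := Le.br hzd hδl hxl
      have hyx' : Le zdg (d + -3) (br y x) := Le.br hzd hyl hxl
      have hδx0 : ∀ b, zdg b = d + -3 → br (q - q') x b = br y x b := fun b hb =>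
        br_top hzd hδl hxl hyl hxl hδy (fun _ _ => rfl) b hb
      have e2 : br q' (br (q - q') x) b = br F (br y x) b :=
        br_top hzd (le_three q') hδx hFl hyx' hq'F hδx0 b (by omega)
      rw [e1, e2, hyx, br_zero_right, Pi.zero_apply, add_zero] at e
      rw [e, Pi.smul_apply]
    · have hFs : Sup zdg (3 + -3) (br F x) := Sup.br hzd (V3_sup _) hxs
      have hs := Sup.br hzd hys hFs
      rw [Pi.smul_apply, hys b hb, smul_zero]
      refine hs b ?_
      change zdg b ≠ _
      omega
  have hy0 : y = 0 := cone_core (f := p3 q) (x := x) hi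
    (by
      rw [← hF, hF]
      have := kap_ixm (V3 (p3 q)) i
      rw [V3_apply_ix] at this
      exact this) hyx hmain i hi
  have := congrFun hy0 m
  rw [← hδy m hm, Pi.sub_apply, Pi.zero_apply, sub_eq_zero] at this
  exact this

/-- a cone point with a unit in degree `3` is determined by its components of degree `≥ 0` -/
theorem cone_unique {q q' : E8 A} (hq : ∀ x, br q (br q x) = (-2 * kap q x) • q)
    (hq' : ∀ x, br q' (br q' x) = (-2 * kap q' x) • q') (h : ∀ m, 0 ≤ zdg m → q m = q' m)
    (i : Fin 8) (hi : IsUnit (q (ix (i : ℕ)))) : q = q' := by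
  have h1 : ∀ m, -1 ≤ zdg m → q m = q' m := fun m hm => by
    rcases eq_or_lt_of_le hm with h0 | h0
    · exact cone_step hq hq' (d := -1) (by norm_num) (fun b hb => h b (by omega)) i hi m h0.symm
    · exact h m (by omega)
  have h2 : ∀ m, -2 ≤ zdg m → q m = q' m := fun m hm => by
    rcases eq_or_lt_of_le hm with h0 | h0
    · exact cone_step hq hq' (d := -2) (by norm_num) (fun b hb => h1 b (by omega)) i hi m h0.symm
    · exact h1 m (by omega)
  funext m
  rcases eq_or_lt_of_le (zdg_ge m) with h0 | h0
  · exact cone_step hq hq' (d := -3) (by norm_num) (fun b hb => h2 b (by omega)) i hi m h0.symm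
  · exact h2 m (by omega)

end

end Pool.Agent.Licci.P
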