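import Pool.Agent.Work.MP_a98e4e_ag.P.Kap
import Pool.Agent.Work.MP_a98e4e_ag.L.FormA4

/-!
# Module P, part 2: brackets with `V3 f`, in `gl_8`-terms

`L3 φ` = inclusion of `F^*` in degree `-3`, `p3m` = the component of degree `-3`.
-/

set_option linter.unusedSectionVars false

namespace Pool.Agent.Licci.P

open scoped BigOperators
open U (Sup)

/-- index of the `i`-th basis vector in degree `-3` -/
def ixm (i : Fin 8) : Fin 248 := ix (232 + (i : ℕ))

theorem ixm_val (i : Fin 8) : ((ixm i : Fin 248) : ℕ) = 232 + i := by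
  unfold ixm
  have := i.2
  simp [ix, Nat.mod_eq_of_lt (show 232 + (i : ℕ) < 248 by omega)]

theorem ixm_inj {i j : Fin 8} (h : ixm i = ixm j) : i = j := by
  have := congrArg (fun m : Fin 248 => (m : ℕ)) h
  simp only [ixm_val] at this
  exact Fin.ext (by omega)

theorem ix_inj {i j : Fin 8} (h : (ix (i : ℕ) : Fin 248) = ix (j : ℕ)) : i = j := by
  have := congrArg (fun m : Fin 248 => (m : ℕ)) h
  simp only [ix_fin] at this
  exact Fin.ext this

set_option maxRecDepth 100000 in
theorem zdg_ixm : ∀ i : Fin 8, zdg (ixm i) = -3 := by decide +kernel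

set_option maxRecDepth 100000 in
theorem ixm_surj : ∀ m : Fin 248, zdg m = -3 → ∃ i : Fin 8, ixm i = m := by decide +kernel

set_option maxRecDepth 100000 in
theorem ix_surj : ∀ m : Fin 248, zdg m = 3 → ∃ i : Fin 8, ix (i : ℕ) = m := by decide +kernel

/-- `δ_ij e_k` -/
def dl (i j k : ℕ) : List (ℕ × ℤ) := bif Nat.beq i j then [(k, 1)] else []

set_option maxRecDepth 100000 in
theorem chk_ppm : ∀ j k i : Fin 8,
    zr (lm j (sp k (232 + i)) ++ ng (dl i j k ++ dl i k j)) = true := by decide +kernel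

set_option maxRecDepth 100000 in
theorem chk_mpm : ∀ j i k : Fin 8,
    zr (rm (sp (232 + j) i) (232 + k) ++ (dl i k (232 + j) ++ dl i j (232 + k))) = true := by
  decide +kernel

section

variable {A : Type*} [CommRing A]

theorem cf_dl (i j k l : ℕ) : cf (dl i j k) l = if i = j ∧ k = l then 1 else 0 := by
  unfold dl
  by_cases h : i = j
  · rw [show Nat.beq i j = true from by simpa using h, cond_true, cf_cons, cf_nil, add_zero]
    by_cases h' : k = l
    · rw [if_pos h', if_pos ⟨h, h'⟩]
    · rw [if_neg h', if_neg (fun h'' => h' h''.2)]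
  · rw [show Nat.beq i j = false from by rw [Bool.eq_false_iff]; simpa using h, cond_false, cf_nil,
      if_neg (fun h'' => h h''.1)]

theorem br_br_of_zr {g j k : Fin 248} {L : List (ℕ × ℤ)}
    (h : zr (lm g (sp j k) ++ ng L) = true) (l : Fin 248) :
    (br (eb g : E8 A) (br (eb j) (eb k))) l = ((cf L l : ℤ) : A) := by
  rw [br_eb_br]
  congr 1
  have h0 := zr_spec h l
  rw [cf_append, cf_ng, cf_lm] at h0
  have e1 := sum_cf (sp j k) (fun p hp => sp_rng j.2 k.2 hp) (fun m => scN g m l)
  simp only [scN] at *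
  rw [e1]
  linarith

theorem br_br_of_zr' {g j k : Fin 248} {L : List (ℕ × ℤ)}
    (h : zr (rm (sp g j) k ++ L) = true) (l : Fin 248) :
    (br (br (eb g : E8 A) (eb j)) (eb k)) l = ((- cf L l : ℤ) : A) := by
  rw [br_br_eb]
  congr 1
  have h0 := zr_spec h l
  rw [cf_append, cf_rm] at h0
  have e1 := sum_cf (sp g j) (fun p hp => sp_rng g.2 j.2 hp) (fun m => scN m k l)
  simp only [scN] at *
  rw [e1]
  linarith

theorem br_ppm (j k i : Fin 8) :
    br (eb (ix (j : ℕ)) : E8 A) (br (eb (ix (k : ℕ))) (eb (ixm i))) =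
      (if i = j then eb (ix (k : ℕ)) else 0) + (if i = k then eb (ix (j : ℕ)) else 0) := by
  funext l
  have h := chk_ppm j k i
  rw [← ix_fin j, ← ix_fin k, ← ixm_val i] at h
  rw [br_br_of_zr h l, cf_append, cf_dl, cf_dl]
  push_cast
  rw [Pi.add_apply]
  congr 1
  · by_cases h1 : i = j
    · subst h1
      rw [if_pos rfl, eb_apply]
      by_cases h2 : l = ix (k : ℕ)
      · subst h2
        rw [if_pos rfl, if_pos ⟨(ix_fin i).symm, rfl⟩]
      · rw [if_neg h2, if_neg (fun h3 => h2 (Fin.ext h3.2.symm))]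
    · rw [if_neg h1, if_neg, Pi.zero_apply]
      rintro ⟨h3, -⟩
      rw [ix_fin] at h3
      exact h1 (Fin.ext h3)
  · by_cases h1 : i = k
    · subst h1
      rw [if_pos rfl, eb_apply]
      by_cases h2 : l = ix (j : ℕ)
      · subst h2
        rw [if_pos rfl, if_pos ⟨(ix_fin i).symm, rfl⟩]
      · rw [if_neg h2, if_neg (fun h3 => h2 (Fin.ext h3.2.symm))]
    · rw [if_neg h1, if_neg, Pi.zero_apply]
      rintro ⟨h3, -⟩
      rw [ix_fin] at h3
      exact h1 (Fin.ext h3)

theorem br_mpm (j i k : Fin 8) :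
    br (br (eb (ixm j) : E8 A) (eb (ix (i : ℕ)))) (eb (ixm k)) =
      - ((if i = k then eb (ixm j) else 0) + (if i = j then eb (ixm k) else 0)) := by
  funext l
  have h := chk_mpm j i k
  have e : (232 + (j : ℕ)) = ((ixm j : Fin 248) : ℕ) := (ixm_val j).symm
  have e' : (232 + (k : ℕ)) = ((ixm k : Fin 248) : ℕ) := (ixm_val k).symm
  rw [e, e'] at h
  have h' : zr (rm (sp (ixm j) (ix (i : ℕ) : Fin 248)) (ixm k) ++ (dl i k (ixm j) ++ dl i j (ixm k)))
      = true := by
    rw [ix_fin i]
    exact h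
  rw [br_br_of_zr' h' l, cf_append, cf_dl, cf_dl]
  rw [Pi.neg_apply, Pi.add_apply]
  push_cast
  congr 2
  · by_cases h1 : i = k
    · subst h1
      rw [if_pos rfl, eb_apply]
      by_cases h2 : l = ixm j
      · subst h2
        rw [if_pos rfl, if_pos ⟨rfl, rfl⟩]
      · rw [if_neg h2, if_neg (fun h3 => h2 (Fin.ext h3.2.symm))]
    · rw [if_neg h1, if_neg, Pi.zero_apply]
      rintro ⟨h3, -⟩
      exact h1 (Fin.ext h3)
  · by_cases h1 : i = j
    · subst h1
      rw [if_pos rfl, eb_apply]
      by_cases h2 : l = ixm k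
      · subst h2
        rw [if_pos rfl, if_pos ⟨rfl, rfl⟩]
      · rw [if_neg h2, if_neg (fun h3 => h2 (Fin.ext h3.2.symm))]
    · rw [if_neg h1, if_neg, Pi.zero_apply]
      rintro ⟨h3, -⟩
      exact h1 (Fin.ext h3)

/-- inclusion of `F^*` in degree `-3` -/
def L3 (φ : Vec A) : E8 A := ∑ i, φ i • eb (ixm i)

/-- component of degree `-3` -/
def p3m (Y : E8 A) : Vec A := fun i => Y (ixm i)

theorem L3_apply (φ : Vec A) (i : Fin 8) : L3 φ (ixm i) = φ i := by
  unfold L3
  rw [Finset.sum_apply, Finset.sum_eq_single i]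
  · rw [Pi.smul_apply, eb_apply, if_pos rfl, smul_eq_mul, mul_one]
  · intro b _ hb
    rw [Pi.smul_apply, eb_apply, if_neg (fun h => hb (ixm_inj h).symm), smul_zero]
  · simp

theorem p3m_L3 (φ : Vec A) : p3m (L3 φ) = φ := by
  funext i
  exact L3_apply φ i

theorem L3_sup (φ : Vec A) : Sup zdg (-3) (L3 φ) := by
  intro m hm
  unfold L3
  rw [Finset.sum_apply]
  refine Finset.sum_eq_zero fun i _ => ?_
  rw [Pi.smul_apply, eb_apply, if_neg, smul_zero]
  rintro rfl
  exact hm (zdg_ixm i)

theorem eq_L3 {Y : E8 A} (h : Sup zdg (-3) Y) : Y = L3 (p3m Y) := by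
  funext m
  by_cases hm : zdg m = -3
  · obtain ⟨i, rfl⟩ := ixm_surj m hm
    rw [L3_apply]
    rfl
  · rw [h m hm, L3_sup _ m hm]

theorem V3_eq_sum (f : Vec A) : V3 f = ∑ i : Fin 8, f i • (eb (ix (i : ℕ)) : E8 A) := by
  funext m
  rw [Finset.sum_apply]
  by_cases hm : zdg m = 3
  · obtain ⟨i, rfl⟩ := ix_surj m hm
    rw [V3_apply_ix, Finset.sum_eq_single i]
    · rw [Pi.smul_apply, eb_apply, if_pos rfl, smul_eq_mul, mul_one]
    · intro b _ hb
      rw [Pi.smul_apply, eb_apply, if_neg (fun h => hb (ix_inj h).symm), smul_zero]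
    · simp
  · rw [V3_sup _ m hm, eq_comm]
    refine Finset.sum_eq_zero fun i _ => ?_
    rw [Pi.smul_apply, eb_apply, if_neg, smul_zero]
    rintro rfl
    exact hm (zdg_lt8 i)

/-- the pairing of `F` and `F^*` -/
def dot (f φ : Vec A) : A := ∑ i, f i * φ i

theorem dot_single (f : Vec A) (i : Fin 8) : dot f (Pi.single i 1) = f i := by
  unfold dot
  rw [Finset.sum_eq_single i]
  · simp
  · intro b _ hb
    simp [hb]
  · simp

theorem br_V3_left (f : Vec A) (X : E8 A) :
    br (V3 f) X = ∑ j : Fin 8, f j • br (eb (ix (j : ℕ)) : E8 A) X := by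
  rw [V3_eq_sum, br_sum_left]
  simp only [br_smul_left]

theorem br_V3_right (f : Vec A) (X : E8 A) :
    br X (V3 f) = ∑ j : Fin 8, f j • br X (eb (ix (j : ℕ)) : E8 A) := by
  rw [V3_eq_sum, br_sum_right]
  simp only [br_smul_right]

theorem br_L3_left (φ : Vec A) (X : E8 A) :
    br (L3 φ) X = ∑ j : Fin 8, φ j • br (eb (ixm j) : E8 A) X := by
  rw [L3, br_sum_left]
  simp only [br_smul_left]

theorem br_L3_right (φ : Vec A) (X : E8 A) :
    br X (L3 φ) = ∑ j : Fin 8, φ j • br X (eb (ixm j) : E8 A) := by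
  rw [L3, br_sum_right]
  simp only [br_smul_right]

theorem V3_V3_L3 (f g φ : Vec A) : br (V3 f) (br (V3 g) (L3 φ)) =
    dot f φ • V3 g + dot g φ • V3 f := by
  rw [br_V3_left g, br_sum_right]
  simp only [br_smul_right, br_L3_right φ, br_sum_right, br_V3_left f, br_ppm]
  simp only [smul_add, Finset.sum_add_distrib, smul_ite, smul_zero,
    Finset.sum_ite_eq', Finset.mem_univ, if_true, Finset.smul_sum]
  congr 1
  · rw [V3_eq_sum g, Finset.smul_sum]
    refine Finset.sum_congr rfl fun k _ => ?_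
    rw [dot, smul_smul, Finset.sum_mul, Finset.sum_smul]
    refine Finset.sum_congr rfl fun i _ => ?_
    rw [smul_smul, smul_smul]
    congr 1
    ring
  · rw [V3_eq_sum f, dot, Finset.sum_smul]
    refine Finset.sum_congr rfl fun k _ => ?_
    rw [Finset.smul_sum]
    refine Finset.sum_congr rfl fun i _ => ?_
    rw [smul_smul, smul_smul, smul_smul]
    congr 1
    ring

theorem L3_V3_L3 (φ f ψ : Vec A) : br (br (L3 φ) (V3 f)) (L3 ψ) =
    - (dot f ψ • L3 φ + dot f φ • L3 ψ) := by
  rw [br_V3_right f, br_sum_left]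
  simp only [br_smul_left, br_L3_left φ, br_sum_left, br_L3_right ψ, br_mpm]
  have h : ∀ i k : Fin 8, (∑ j : Fin 8, φ j • -((if i = k then (eb (ixm j) : E8 A) else 0) +
      (if i = j then eb (ixm k) else 0))) = -((if i = k then L3 φ else 0) + φ i • eb (ixm k)) := by
    intro i k
    simp only [smul_neg, smul_add, Finset.sum_neg_distrib, Finset.sum_add_distrib, smul_ite,
      smul_zero, Finset.sum_ite_eq, Finset.mem_univ, if_true]
    congr 2
    by_cases hik : i = k
    · simp only [if_pos hik]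
      rfl
    · simp only [if_neg hik, Finset.sum_const_zero]
  have h' : ∀ i : Fin 8, (∑ k : Fin 8, ψ k • (∑ j : Fin 8, φ j • -((if i = k then (eb (ixm j) : E8 A)
      else 0) + (if i = j then eb (ixm k) else 0)))) = -(ψ i • L3 φ + φ i • L3 ψ) := by
    intro i
    simp only [h]
    simp only [smul_neg, smul_add, Finset.sum_neg_distrib, Finset.sum_add_distrib, smul_ite,
      smul_zero, Finset.sum_ite_eq, Finset.mem_univ, if_true]
    congr 2
    rw [L3, Finset.smul_sum]
    refine Finset.sum_congr rfl fun k _ => ?_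
    rw [smul_comm]
  have e : ∀ i : Fin 8, (∑ k : Fin 8, ψ k • f i • (∑ j : Fin 8, φ j • -((if i = k then
      (eb (ixm j) : E8 A) else 0) + (if i = j then eb (ixm k) else 0)))) =
      f i • -(ψ i • L3 φ + φ i • L3 ψ) := by
    intro i
    rw [← h' i, Finset.smul_sum]
    refine Finset.sum_congr rfl fun k _ => ?_
    rw [smul_comm]
  rw [Finset.sum_congr rfl fun i _ => e i]
  simp only [smul_neg, smul_add, Finset.sum_neg_distrib, Finset.sum_add_distrib, dot,
    Finset.sum_smul, smul_smul]

/-! ### the invariant form on basis vectors -/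

theorem kap_eb_of {m n : Fin 248} (hm : (m : ℕ) < 240) (h : cd m + cd n = off + off) (Y : E8 A) :
    kap Y (eb n) = - Y m := by
  have hn : (n : ℕ) < 240 := by
    by_contra hn
    have h1 := cd_cartan (i := (n : ℕ)) (by omega) n.2
    have h2 : cd m = off := by omega
    have h3 := fnd_cd hm
    rw [h2] at h3
    have h4 : fnd (off + off) = 255 := by decide +kernel
    omega
  rw [kap_eb_right, Finset.sum_eq_single m]
  · have e : kN m n = -1 := by
      unfold kN kcN
      rw [blt_true hm, cond_true, blt_true hn, cond_true,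
        show Nat.beq (Nat.add (cd m) (cd n)) 1145324612 = true from by
        rw [off2]
        simpa using h, cond_true]
    rw [e]
    push_cast
    ring
  · intro b _ hb
    have e : kN b n = 0 := by
      by_contra hne
      have h1 := kN_wt b.2 n.2 hne
      have hb' : (b : ℕ) < 240 := by
        by_contra hb'
        unfold kN kcN at hne
        rw [blt_false (by omega), cond_false, blt_true hn, cond_true] at hne
        exact hne rfl
      have h2 : cd b = cd m := by omega
      have h3 := fnd_cd hb'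
      rw [h2, fnd_cd hm] at h3
      exact hb (Fin.ext h3.symm)
    rw [e, Int.cast_zero, zero_mul]
  · simp

set_option maxRecDepth 100000 in
theorem neg_chk1 : ∀ i j k : Fin 8, i < j → j < k →
    (i1 i j k : ℕ) < 240 ∧ cd (i1 i j k) + cd (im1 i j k) = off + off := by decide +kernel

set_option maxRecDepth 100000 in
theorem neg_chk2 : ∀ i j : Fin 8, i < j → (im2 i j : ℕ) < 240 ∧ zdg (im2 i j) = -2 ∧
    cd (im2 i j) + cd (i2 i j) = off + off := by decide +kernel

set_option maxRecDepth 100000 in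
theorem neg_chk3 : ∀ i : Fin 8, (ix (i : ℕ) : ℕ) < 240 ∧
    cd (ix (i : ℕ)) + cd (ixm i) = off + off := by decide +kernel

theorem kap_im1 (Y : E8 A) {i j k : Fin 8} (h1 : i < j) (h2 : j < k) :
    kap Y (eb (im1 i j k)) = - Y (i1 i j k) :=
  kap_eb_of (neg_chk1 i j k h1 h2).1 (neg_chk1 i j k h1 h2).2 Y

theorem kap_i2 (Y : E8 A) {i j : Fin 8} (h : i < j) : kap Y (eb (i2 i j)) = - Y (im2 i j) :=
  kap_eb_of (neg_chk2 i j h).1 (neg_chk2 i j h).2.2 Y

theorem kap_ixm (Y : E8 A) (i : Fin 8) : kap Y (eb (ixm i)) = - Y (ix (i : ℕ)) :=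
  kap_eb_of (neg_chk3 i).1 (neg_chk3 i).2 Y

theorem kap_L3 (Y : E8 A) (φ : Vec A) : kap Y (L3 φ) = - dot (p3 Y) φ := by
  rw [L3, map_sum, dot, ← Finset.sum_neg_distrib]
  refine Finset.sum_congr rfl fun i _ => ?_
  rw [map_smul, kap_ixm, smul_eq_mul, p3]
  ring

/-- the vector `V3 f` is in the cone -/
theorem V3_cone (f : Vec A) (x : E8 A) : br (V3 f) (br (V3 f) x) = (-2 * kap (V3 f) x) • V3 f := by
  have key : ∀ m : Fin 248, br (V3 f) (br (V3 f) (eb m)) = (-2 * kap (V3 f) (eb m)) • V3 f := by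
    intro m
    by_cases hm : zdg m = -3
    · obtain ⟨i, rfl⟩ := ixm_surj m hm
      have h := V3_V3_L3 f f (Pi.single i 1)
      have e : L3 (Pi.single i 1 : Vec A) = eb (ixm i) := by
        unfold L3
        rw [Finset.sum_eq_single i]
        · simp
        · intro b _ hb
          simp [hb]
        · simp
      rw [e, dot_single] at h
      rw [h, kap_ixm, V3_apply_ix, ← add_smul]
      congr 1
      ring
    · have hs : Sup zdg (zdg m) (eb m : E8 A) := by
        intro b hb
        rw [eb_apply, if_neg]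
        rintro rfl
        exact hb rfl
      have h1 := Sup.br (fun _ _ _ h => sc_zdg h) (V3_sup f)
        (Sup.br (fun _ _ _ h => sc_zdg h) (V3_sup f) hs)
      rw [kap_of_sup (by omega) (V3_sup f) hs, mul_zero, zero_smul]
      funext b
      refine h1 b ?_
      change zdg b ≠ _
      have := zdg_le b
      have := zdg_ge m
      omega
  have := E8.hom_ext (f := (brL (V3 f)) ∘ₗ (brL (V3 f)))
    (g := ((-2 : A) • (kap (V3 f) : E8 A →ₗ[A] A)).smulRight (V3 f)) (fun m => by
      rw [LinearMap.comp_apply, brL_apply, brL_apply, key m, LinearMap.smulRight_apply,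
        LinearMap.smul_apply, smul_eq_mul])
  have h := LinearMap.congr_fun this x
  rw [LinearMap.comp_apply, brL_apply, brL_apply, LinearMap.smulRight_apply,
        LinearMap.smul_apply, smul_eq_mul] at h
  exact h

end

end Pool.Agent.Licci.P
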