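import Pool.Agent.Work.MP_a98e4e_ag.P.Frm2
import Pool.Agent.Work.MP_a98e4e_ag.U.Tab6b

/-!
# Module P, part 5: degree `0`
-/

set_option linter.unusedSectionVars false

namespace Pool.Agent.Licci.P

open scoped BigOperators
open U (Sup)

section

variable {A : Type*} [CommRing A]

/-- `L3` as a linear map -/
def L3L : Vec A →ₗ[A] E8 A where
  toFun := L3
  map_add' φ ψ := by
    simp only [L3, Pi.add_apply, add_smul, Finset.sum_add_distrib]
  map_smul' c φ := by
    simp only [L3, Pi.smul_apply, smul_eq_mul, RingHom.id_apply, Finset.smul_sum, smul_smul]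

@[simp] theorem L3L_apply (φ : Vec A) : L3L φ = L3 φ := rfl

/-- `p3m` as a linear map -/
def p3mL : E8 A →ₗ[A] Vec A where
  toFun := p3m
  map_add' _ _ := rfl
  map_smul' _ _ := rfl

@[simp] theorem p3mL_apply (Y : E8 A) : p3mL Y = p3m Y := rfl

/-- the action on degree `-3` -/
def rho : E8 A →ₗ[A] Vec A →ₗ[A] Vec A :=
  LinearMap.mk₂ A (fun Y φ => p3m (br Y (L3 φ)))
    (fun Y Y' φ => by rw [br_add_left]; rfl)
    (fun c Y φ => by rw [br_smul_left]; rfl)
    (fun Y φ ψ => by rw [← L3L_apply, map_add, br_add_right]; rfl)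
    (fun c Y φ => by rw [← L3L_apply, map_smul, br_smul_right]; rfl)

theorem rho_apply (Y : E8 A) (φ : Vec A) : rho Y φ = p3m (br Y (L3 φ)) := rfl

/-- trace -/
def tr8 : (Vec A →ₗ[A] Vec A) →ₗ[A] A where
  toFun N := ∑ i : Fin 8, N (Pi.single i 1) i
  map_add' N N' := by simp [Finset.sum_add_distrib]
  map_smul' c N := by simp [Finset.mul_sum]

theorem tr8_apply (N : Vec A →ₗ[A] Vec A) : tr8 N = ∑ i : Fin 8, N (Pi.single i 1) i := rfl

theorem br_L3_of_sup {Y : E8 A} (hY : Sup zdg 0 Y) (φ : Vec A) : br Y (L3 φ) = L3 (rho Y φ) := by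
  have h := Sup.br (fun _ _ _ h => sc_zdg h) hY (L3_sup φ)
  rw [zero_add] at h
  exact eq_L3 h

theorem rho_L3_V3 (φ f ψ : Vec A) : rho (br (L3 φ) (V3 f)) ψ =
    - (dot f ψ • φ + dot f φ • ψ) := by
  rw [rho_apply, L3_V3_L3]
  change -(dot f ψ • p3m (L3 φ) + dot f φ • p3m (L3 ψ)) = _
  rw [p3m_L3, p3m_L3]

theorem dot_single_left (i : Fin 8) (φ : Vec A) : dot (Pi.single i 1) φ = φ i := by
  unfold dot
  rw [Finset.sum_eq_single i]
  · simp
  · intro b _ hb
    simp [hb]
  · simp

theorem tr8_L3_V3 (φ f : Vec A) : tr8 (rho (br (L3 φ) (V3 f))) = - (9 * dot f φ) := by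
  rw [tr8_apply]
  simp only [rho_L3_V3, Pi.neg_apply, Pi.add_apply, Pi.smul_apply, smul_eq_mul, dot_single,
    Pi.single_eq_same, mul_one, Finset.sum_neg_distrib, Finset.sum_add_distrib]
  rw [Finset.sum_const, Finset.card_univ, Fintype.card_fin]
  change -(dot f φ + _) = _
  simp
  ring

end

/-! ### `e_8` in degree `0` acts faithfully on degree `-3` -/

set_option maxRecDepth 100000 in
theorem i0_surj : ∀ m : Fin 248, zdg m = 0 → (m : ℕ) < 240 → ∃ i j : Fin 8, i ≠ j ∧ i0 i j = m := by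
  decide +kernel

set_option maxRecDepth 100000 in
theorem i0_ixm_chk : ∀ i j : Fin 8, i ≠ j →
    ((i0 i j : Fin 248) : ℕ) = fnd (cd (ixm j) + off + off - cd (ixm i)) ∧
      (sc (ixm i) (i0 i j) (ixm j) = 1 ∨ sc (ixm i) (i0 i j) (ixm j) = -1) := by
  decide +kernel

/-- eigenvalues of the simple coroots in degree `-3` -/
def tbm : Fin 8 → Fin 8 → ℤ :=
  ![![-1, 0, 0, 0, 0, 0, 0, 0], ![1, -1, 0, 0, 0, 0, 0, 0], ![0, 1, -1, 0, 0, 0, 0, 0],
    ![0, 0, 1, -1, 0, 0, 0, 0], ![0, 0, 0, 1, -1, 0, 0, 0], ![0, 0, 0, 0, 1, -1, 0, -1],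
    ![0, 0, 0, 0, 0, 1, -1, -1], ![0, 0, 0, 0, 0, 0, 1, -1]]

set_option maxRecDepth 100000 in
theorem cart_ixm_chk : ∀ i : Fin 8, ∀ q : Fin 8, prN (ixm i) q = tbm i q := by
  decide +kernel

section

variable {A : Type*} [CommRing A]

theorem br_eb_self' (n : Fin 248) (hn : (n : ℕ) < 240) (Y : E8 A) :
    br (eb n) Y n = - ∑ q : Fin 8, ((prN n q : ℤ) : A) * Y ⟨240 + q, by omega⟩ := by
  rw [br_eb_left]
  have h6 : ∀ i : Fin (240 + 8), ((sc n i n : ℤ) : A) * Y i =
      Fin.addCases (motive := fun _ => A) (fun _ => 0)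
        (fun q : Fin 8 => - (((prN n q : ℤ) : A) * Y ⟨240 + q, by omega⟩)) i := by
    intro i
    refine Fin.addCases (fun j => ?_) (fun q => ?_) i
    · rw [Fin.addCases_left]
      have h8 : sc n (Fin.castAdd 8 j : Fin (240 + 8)) n = 0 := by
        by_contra hne
        have h1 := scN_wt n.2 (Fin.castAdd 8 j : Fin (240 + 8)).2 hne
        have h2 : cd ((Fin.castAdd 8 j : Fin (240 + 8)) : ℕ) = off := by omega
        have h3 := fnd_cd (i := (j : ℕ)) j.2
        rw [Fin.val_castAdd] at h2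
        rw [h2] at h3
        have h4 : fnd (off + off) = 255 := by decide +kernel
        omega
      rw [h8, Int.cast_zero, zero_mul]
    · rw [Fin.addCases_right]
      have h8 : sc n (Fin.natAdd 240 q : Fin (240 + 8)) n = - prN n q := by
        unfold sc scN
        rw [Fin.val_natAdd, sp_cartan_right hn (by omega), cf_cons, cf_nil, if_pos rfl, add_zero,
          Nat.add_sub_cancel_left]
      rw [h8, Int.cast_neg, neg_mul]
      rfl
  have h7 : ∑ i : Fin (240 + 8), ((sc n i n : ℤ) : A) * Y i =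
      - ∑ q : Fin 8, ((prN n q : ℤ) : A) * Y ⟨240 + q, by omega⟩ := by
    rw [Finset.sum_congr rfl fun i _ => h6 i, Fin.sum_univ_add]
    simp only [Fin.addCases_left, Fin.addCases_right, Finset.sum_const_zero, zero_add,
      Finset.sum_neg_distrib]
  exact h7

theorem L3_single (i : Fin 8) : (L3 (Pi.single i 1) : E8 A) = eb (ixm i) := by
  unfold L3
  rw [Finset.sum_eq_single i]
  · simp
  · intro b _ hb
    simp [hb]
  · simp

theorem three_cancel [Algebra ℚ A] {x : A} (h : (3 : A) * x = 0) : x = 0 := by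
  have h1 : algebraMap ℚ A (1 / 3) * (3 : A) = 1 := by
    rw [← map_ofNat (algebraMap ℚ A) 3, ← map_mul]
    norm_num
  calc x = algebraMap ℚ A (1 / 3) * (3 * x) := by rw [← mul_assoc, h1, one_mul]
    _ = 0 := by rw [h, mul_zero]

/-- faithfulness -/
theorem rho_inj [Algebra ℚ A] {Y : E8 A} (hY : Sup zdg 0 Y)
    (h : ∀ i, rho Y (Pi.single i 1) = 0) : Y = 0 := by
  have h0 : ∀ i j : Fin 8, br (eb (ixm i)) Y (ixm j) = 0 := by
    intro i j
    have h1 := congrFun (h i) j
    rw [rho_apply, L3_single, Pi.zero_apply] at h1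
    rw [br_skew, Pi.neg_apply]
    change -(p3m (br Y (eb (ixm i))) j) = 0
    rw [h1, neg_zero]
  have hr : ∀ i : Fin 8, ((ixm i : Fin 248) : ℕ) < 240 := fun i => by
    rw [ixm_val]
    omega
  have hc : ∀ i : Fin 8, ∑ q : Fin 8, ((prN (ixm i) q : ℤ) : A) * Y ⟨240 + q, by omega⟩ = 0 := by
    intro i
    have h1 := h0 i i
    rw [br_eb_self' _ (hr i)] at h1
    exact neg_eq_zero.1 h1
  have hw : ∀ q : Fin 8, Y ⟨240 + q, by omega⟩ = 0 := by
    have c0 := hc 0
    have c1 := hc 1
    have c2 := hc 2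
    have c3 := hc 3
    have c4 := hc 4
    have c5 := hc 5
    have c6 := hc 6
    have c7 := hc 7
    simp only [cart_ixm_chk, Fin.sum_univ_eight] at c0 c1 c2 c3 c4 c5 c6 c7
    simp [tbm] at c0 c1 c2 c3 c4 c5 c6 c7
    have e7 : Y 247 = 0 := three_cancel (by
      linear_combination c0 - c1 - c2 - c3 - c4 - c5 - c6 - c7)
    have e6 : Y 246 = 0 := by linear_combination c7 + e7
    have e5 : Y 245 = 0 := by linear_combination c6 + e6 + e7
    have e4 : Y 244 = 0 := by linear_combination c5 + e5 + e7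
    have e3 : Y 243 = 0 := by linear_combination c4 + e4
    have e2 : Y 242 = 0 := by linear_combination c3 + e3
    have e1 : Y 241 = 0 := by linear_combination c2 + e2
    intro q
    fin_cases q
    · exact c0
    · exact e1
    · exact e2
    · exact e3
    · exact e4
    · exact e5
    · exact e6
    · exact e7
  funext m
  rw [Pi.zero_apply]
  by_cases hm : zdg m = 0
  · rcases lt_or_ge (m : ℕ) 240 with hm' | hm'
    · obtain ⟨i, j, hij, rfl⟩ := i0_surj m hm hm'
      have h1 := h0 i j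
      obtain ⟨e1, e2⟩ := i0_ixm_chk i j hij
      rw [br_eb_left_of (hr i) (hr j) (fun h => hij (ixm_inj h)) e1] at h1
      rcases e2 with e2 | e2
      · rw [e2] at h1
        simpa using h1
      · rw [e2] at h1
        simpa using h1
    · have e : m = ⟨240 + ((⟨(m : ℕ) - 240, by omega⟩ : Fin 8) : ℕ), by simp; omega⟩ := by
        apply Fin.ext
        simp
        omega
      rw [e]
      exact hw _
  · exact hY m hm

/-- the traceless correction of `rho` -/
def tht [Algebra ℚ A] : E8 A →ₗ[A] Vec A →ₗ[A] Vec A :=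
  rho - (algebraMap ℚ A (1 / 9)) • ((tr8 ∘ₗ rho).smulRight (LinearMap.id : Vec A →ₗ[A] Vec A))

theorem tht_apply [Algebra ℚ A] (Y : E8 A) (x : Vec A) :
    tht Y x = rho Y x - (algebraMap ℚ A (1 / 9) * tr8 (rho Y)) • x := by
  simp only [tht, LinearMap.sub_apply, LinearMap.smul_apply, LinearMap.smulRight_apply,
    LinearMap.comp_apply, LinearMap.id_apply, smul_smul]

theorem nine_inv [Algebra ℚ A] : algebraMap ℚ A (1 / 9) * (9 : A) = 1 := by
  rw [← map_ofNat (algebraMap ℚ A) 9, ← map_mul]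
  norm_num

theorem tht_L3_V3 [Algebra ℚ A] (φ f x : Vec A) :
    tht (br (L3 φ) (V3 f)) x = - (dot f x • φ) := by
  rw [tht_apply, rho_L3_V3, tr8_L3_V3]
  have h := nine_inv (A := A)
  have e : algebraMap ℚ A (1 / 9) * -(9 * dot f φ) = - dot f φ := by
    linear_combination (- dot f φ) * h
  rw [e]
  module

theorem tr8_id : tr8 (LinearMap.id : Vec A →ₗ[A] Vec A) = 8 := by
  rw [tr8_apply]
  simp

theorem tht_inj [Algebra ℚ A] {Y : E8 A} (hY : Sup zdg 0 Y)
    (h : ∀ i, tht Y (Pi.single i 1) = 0) : Y = 0 := by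
  have h1 : ∀ i, rho Y (Pi.single i 1) = (algebraMap ℚ A (1 / 9) * tr8 (rho Y)) • Pi.single i 1 := by
    intro i
    have := h i
    rwa [tht_apply, sub_eq_zero] at this
  have h2 : tr8 (rho Y) = 8 * (algebraMap ℚ A (1 / 9) * tr8 (rho Y)) := by
    conv_lhs => rw [tr8_apply]
    simp only [h1, Pi.smul_apply, Pi.single_eq_same, smul_eq_mul, mul_one, Finset.sum_const,
      Finset.card_univ, Fintype.card_fin, nsmul_eq_mul]
    push_cast
    ring
  have h9 := nine_inv (A := A)
  have h3 : tr8 (rho Y) = 0 := by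
    linear_combination 9 * h2 + (8 * tr8 (rho Y)) * h9
  refine rho_inj hY fun i => ?_
  rw [h1, h3, mul_zero, zero_smul]

/-- every endomorphism of `F^*` is the corrected action of an element of degree `0` -/
theorem rho_surj [Algebra ℚ A] (N : Vec A →ₗ[A] Vec A) : ∃ Y : E8 A, Sup zdg 0 Y ∧ rho Y = N := by
  have hsup : ∀ φ f : Vec A, Sup zdg 0 (br (L3 φ) (V3 f)) := by
    intro φ f
    have := Sup.br (fun _ _ _ h => sc_zdg h) (L3_sup φ) (V3_sup f)
    rwa [show (-3 : ℤ) + 3 = 0 by norm_num] at this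
  have hsum : ∀ {a b : E8 A}, Sup zdg 0 a → Sup zdg 0 b → Sup zdg 0 (a + b) := by
    intro a b ha hb m hm
    rw [Pi.add_apply, ha m hm, hb m hm, add_zero]
  have hsm : ∀ (c : A) {a : E8 A}, Sup zdg 0 a → Sup zdg 0 (c • a) := by
    intro c a ha m hm
    rw [Pi.smul_apply, ha m hm, smul_zero]
  have hss : ∀ (g : Fin 8 → E8 A), (∀ i, Sup zdg 0 (g i)) → Sup zdg 0 (∑ i, g i) := by
    intro g hg m hm
    rw [Finset.sum_apply]
    exact Finset.sum_eq_zero fun i _ => hg i m hm
  let I0 : E8 A := ∑ j : Fin 8, br (L3 (Pi.single j 1)) (V3 (Pi.single j 1))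
  have hI : rho I0 = (-9 : A) • LinearMap.id := by
    refine LinearMap.ext fun x => ?_
    simp only [I0, map_sum, LinearMap.sum_apply, rho_L3_V3, dot_single_left, Pi.single_eq_same,
      LinearMap.smul_apply, LinearMap.id_apply, one_smul, Finset.sum_neg_distrib,
      Finset.sum_add_distrib, Finset.sum_const, Finset.card_univ, Fintype.card_fin]
    have e : (∑ j : Fin 8, x j • (Pi.single j 1 : Vec A)) = x := by
      funext k
      simp [Finset.sum_apply, Pi.single_apply]
    rw [e]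
    module
  let t : A := ∑ j : Fin 8, N (Pi.single j 1) j
  refine ⟨(-1 : A) • (∑ j : Fin 8, br (L3 (N (Pi.single j 1))) (V3 (Pi.single j 1))) +
    (algebraMap ℚ A (1 / 9) * t) • I0, ?_, ?_⟩
  · refine hsum (hsm _ (hss _ fun i => hsup _ _)) (hsm _ (hss _ fun i => hsup _ _))
  · refine LinearMap.ext fun x => ?_
    rw [map_add, map_smul, map_smul, hI]
    simp only [map_sum, LinearMap.add_apply, LinearMap.smul_apply, LinearMap.sum_apply, rho_L3_V3,
      dot_single_left, LinearMap.id_apply, Finset.sum_neg_distrib, Finset.sum_add_distrib]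
    have e1 : (∑ j : Fin 8, x j • N (Pi.single j 1)) = N x := by
      conv_rhs => rw [show x = ∑ j : Fin 8, x j • (Pi.single j 1 : Vec A) by
        funext k
        simp [Finset.sum_apply, Pi.single_apply]]
      rw [map_sum]
      exact Finset.sum_congr rfl fun j _ => by rw [map_smul]
    rw [e1, ← Finset.sum_smul]
    change (-1 : A) • -(N x + t • x) + (algebraMap ℚ A (1 / 9) * t) • (-9 : A) • x = N x
    have h := nine_inv (A := A)
    have e2 : (algebraMap ℚ A (1 / 9) * t) • (-9 : A) • x = (-t) • x := by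
      rw [smul_smul]
      congr 1
      linear_combination (-t) * h
    rw [e2]
    module

theorem tht_surj [Algebra ℚ A] (N : Vec A →ₗ[A] Vec A) : ∃ Y : E8 A, Sup zdg 0 Y ∧ tht Y = N := by
  obtain ⟨Y, hY, h⟩ := rho_surj (N + tr8 N • LinearMap.id)
  refine ⟨Y, hY, LinearMap.ext fun x => ?_⟩
  rw [tht_apply, h, map_add, map_smul, tr8_id]
  have h9 := nine_inv (A := A)
  have e : algebraMap ℚ A (1 / 9) * (tr8 N + tr8 N • 8) = tr8 N := by
    rw [smul_eq_mul]
    linear_combination (tr8 N) * h9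
  rw [e]
  simp only [LinearMap.add_apply, LinearMap.smul_apply, LinearMap.id_apply]
  module

end

end Pool.Agent.Licci.P
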