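import Pool.Agent.Work.MP_a98e4e_ag.P.Expc
import Pool.Agent.Work.MP_a98e4e_ag.P.Deg0
import Pool.Agent.Work.MP_a98e4e_ag.KoszulTop
import Pool.Agent.Work.MP_a98e4e_ag.CA1
import Pool.Agent.Work.MP_a98e4e_ag.Cech

/-!
# Module P, part 8: descending forms from `K` to `R`, base change, charts
-/

set_option linter.unusedSectionVars false

namespace Pool.Agent.Licci.P

open scoped BigOperators
open U (Sup)
open LicciCodimFour (chart mem_chart)
open RingTheory.Sequence

universe u v

section descend

variable {R : Type*} [CommRing R] {M N N' : Type*} [AddCommGroup M] [Module R M] [AddCommGroup N]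
  [Module R N] [AddCommGroup N'] [Module R N']

theorem exists_descend (j : N' →ₗ[R] N) (hj : Function.Injective j) {n : ℕ}
    (ω : M [⋀^Fin n]→ₗ[R] N) (h : ∀ v, ω v ∈ LinearMap.range j) :
    ∃ ω' : M [⋀^Fin n]→ₗ[R] N', j.compAlternatingMap ω' = ω := by
  let e := LinearEquiv.ofInjective j hj
  refine ⟨(e.symm : LinearMap.range j →ₗ[R] N').compAlternatingMap
    (ω.codRestrict (LinearMap.range j) h), ?_⟩
  ext v
  rw [LinearMap.compAlternatingMap_apply, LinearMap.compAlternatingMap_apply]
  have h1 := e.apply_symm_apply (ω.codRestrict (LinearMap.range j) h v)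
  have h2 := congrArg Subtype.val h1
  rw [LinearEquiv.ofInjective_apply] at h2
  exact h2

theorem comp_injective (j : N' →ₗ[R] N) (hj : Function.Injective j) {n : ℕ}
    {ω ω' : M [⋀^Fin n]→ₗ[R] N'} (h : j.compAlternatingMap ω = j.compAlternatingMap ω') :
    ω = ω' := by
  ext v
  apply hj
  have := congrArg (fun (f : M [⋀^Fin n]→ₗ[R] N) => f v) h
  exact this

/-- a closed form is `f ∧ _` where `f u` is invertible -/
theorem eq_wedge_contr {K : Type*} [Field K] [Algebra R K] (f : M →ₗ[R] R) (u : M) (n : ℕ)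
    (ω : M [⋀^Fin (n + 1)]→ₗ[R] K) (hω : wedge f (n + 1) ω = 0) (hu : algebraMap R K (f u) ≠ 0) :
    wedge f n ((LinearMap.mulLeft R (algebraMap R K (f u))⁻¹).compAlternatingMap (contr u n ω)) =
      ω := by
  have h1 := contr_wedge f u n ω
  rw [hω, map_zero] at h1
  have h2 : wedge f n (contr u n ω) = f u • ω := (sub_eq_zero.1 h1.symm).symm
  rw [wedge_compRight, h2]
  ext v
  rw [LinearMap.compAlternatingMap_apply, LinearMap.mulLeft_apply, AlternatingMap.smul_apply,
    Algebra.smul_def, ← mul_assoc, inv_mul_cancel₀ hu, one_mul]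

end descend

section basechange

variable {R K : Type*} [CommRing R] [CommRing K] [Algebra R K]

/-- `E8 R → E8 K` -/
def up (R K : Type*) [CommRing R] [CommRing K] [Algebra R K] (x : E8 R) : E8 K :=
  fun m => algebraMap R K (x m)

theorem up_apply (x : E8 R) (m : Fin 248) : up R K x m = algebraMap R K (x m) := rfl

theorem up_add (x y : E8 R) : up R K (x + y) = up R K x + up R K y := by
  funext m
  simp [up_apply]

theorem up_br (x y : E8 R) : up R K (br x y) = br (up R K x) (up R K y) :=
  br_map (algebraMap R K) x y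

theorem up_kap (x y : E8 R) : algebraMap R K (kap x y) = kap (up R K x) (up R K y) :=
  kap_map (algebraMap R K) x y

theorem up_sup {d : ℤ} {x : E8 R} (h : Sup zdg d x) : Sup zdg d (up R K x) := fun m hm => by
  rw [up_apply, h m hm, map_zero]

theorem V3_em (f : Vec R) : V3 (emL R K f) = up R K (V3 f) := by
  funext m
  rw [up_apply]
  unfold V3
  split_ifs
  · rfl
  · rw [map_zero]

theorem L3_em (φ : Vec R) : L3 (emL R K φ) = up R K (L3 φ) := by
  funext m
  rw [up_apply]
  unfold L3
  simp only [Finset.sum_apply, Pi.smul_apply, smul_eq_mul, map_sum, map_mul, eb_apply, emL_apply]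
  refine Finset.sum_congr rfl fun i _ => ?_
  split_ifs <;> simp

theorem em_single (i : Fin 8) : emL R K (Pi.single i 1) = Pi.single i 1 := by
  funext k
  rw [emL_apply]
  by_cases h : k = i
  · subst h; simp
  · simp [h]

theorem D3_em (v : Fin 3 → Vec R) : D3 (fun i => emL R K (v i)) = up R K (D3 v) := by
  funext m
  rw [up_apply, D3_apply, D3_apply, M1_apply, M1_apply]
  simp only [map_sum]
  refine Finset.sum_congr rfl fun i _ => Finset.sum_congr rfl fun j _ =>
    Finset.sum_congr rfl fun k _ => ?_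
  split_ifs
  · rw [map_mul, map_intCast]
    congr 1
    simp only [det3, emL_apply, map_add, map_sub, map_mul]
  · rw [map_zero]

theorem rho_em (Y : E8 R) (x : Vec R) : rho (up R K Y) (emL R K x) = emL R K (rho Y x) := by
  rw [rho_apply, rho_apply, L3_em, ← up_br]
  rfl

theorem tr8_em (Y : E8 R) : tr8 (rho (up R K Y)) = algebraMap R K (tr8 (rho Y)) := by
  rw [tr8_apply, tr8_apply, map_sum]
  refine Finset.sum_congr rfl fun i _ => ?_
  rw [← em_single (R := R) (K := K), rho_em, emL_apply]

theorem tht_em [Algebra ℚ R] [Algebra ℚ K] (Y : E8 R) (x : Vec R) :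
    tht (up R K Y) (emL R K x) = emL R K (tht Y x) := by
  rw [tht_apply, tht_apply, rho_em, tr8_em, map_sub, map_smul,
    ← (algebraMap R K).map_rat_algebraMap, ← map_mul, algebraMap_smul]

theorem emL_injective (h : Function.Injective (algebraMap R K)) :
    Function.Injective (emL R K) := by
  intro x y hxy
  funext i
  apply h
  exact congrFun hxy i

/-- coordinates in a subalgebra -/
def In (S : Subalgebra R K) (x : E8 K) : Prop := ∀ m, x m ∈ S

theorem In.up (S : Subalgebra R K) (x : E8 R) : In S (up R K x) := fun _ => S.algebraMap_mem _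

theorem In.add {S : Subalgebra R K} {x y : E8 K} (hx : In S x) (hy : In S y) : In S (x + y) :=
  fun m => S.add_mem (hx m) (hy m)

theorem In.sub {S : Subalgebra R K} {x y : E8 K} (hx : In S x) (hy : In S y) : In S (x - y) :=
  fun m => S.sub_mem (hx m) (hy m)

theorem In.neg {S : Subalgebra R K} {x : E8 K} (hx : In S x) : In S (-x) :=
  fun m => S.neg_mem (hx m)

theorem In.smul {S : Subalgebra R K} {c : K} (hc : c ∈ S) {x : E8 K} (hx : In S x) :
    In S (c • x) := fun m => S.mul_mem hc (hx m)

theorem In.br {S : Subalgebra R K} {x y : E8 K} (hx : In S x) (hy : In S y) :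
    In S (Licci.br x y) := br_mem S hx hy

theorem rat_mem [Algebra ℚ R] [Algebra ℚ K] (S : Subalgebra R K) (r : ℚ) :
    algebraMap ℚ K r ∈ S := by
  rw [← (algebraMap R K).map_rat_algebraMap]
  exact S.algebraMap_mem _

theorem In.q1 [Algebra ℚ R] [Algebra ℚ K] {S : Subalgebra R K} {F n₁ n₂ : E8 K} (hF : In S F)
    (h1 : In S n₁) (h2 : In S n₂) : In S (q1 F n₁ n₂) :=
  (h2.br hF).add (In.smul (rat_mem S _) (h1.br (h1.br hF)))

theorem In.q0 [Algebra ℚ R] [Algebra ℚ K] {S : Subalgebra R K} {F n₁ n₂ : E8 K} (hF : In S F)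
    (h1 : In S n₁) (h2 : In S n₂) : In S (q0 F n₁ n₂) :=
  (In.smul (rat_mem S _) ((h1.br (h2.br hF)).add (h2.br (h1.br hF)))).add
    (In.smul (rat_mem S _) (h1.br (h1.br (h1.br hF))))

theorem al3_mem {S : Subalgebra R K} {q : E8 K} (hq : In S q) (v : Fin 3 → Vec R) :
    al3 R q v ∈ S := by
  rw [al3_apply, D3_em]
  exact kap_mem S hq (In.up S _)

theorem zsmul_mem' (S : Subalgebra R K) (n : ℤ) {x : K} (hx : x ∈ S) : n • x ∈ S := by
  rw [zsmul_eq_mul]
  exact S.mul_mem (intCast_mem S n) hx

theorem wedge_mem {S : Subalgebra R K} {n : ℕ} (f : Vec R →ₗ[R] R) {ω : (Vec R) [⋀^Fin n]→ₗ[R] K}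
    (hω : ∀ v, ω v ∈ S) (v : Fin (n + 1) → Vec R) : wedge f n ω v ∈ S := by
  rw [wedge_apply]
  exact S.sum_mem fun i _ => zsmul_mem' S _ (S.smul_mem (hω _) _)

theorem rho_mem {S : Subalgebra R K} {q : E8 K} (hq : In S q) (x : Vec R) (k : Fin 8) :
    rho q (emL R K x) k ∈ S := by
  rw [rho_apply, L3_em]
  exact (hq.br (In.up S _)) _

theorem tr8_mem {S : Subalgebra R K} {q : E8 K} (hq : In S q) : tr8 (rho q) ∈ S := by
  rw [tr8_apply]
  refine S.sum_mem fun i _ => ?_
  rw [← em_single (R := R)]
  exact rho_mem hq _ _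

theorem tht_mem [Algebra ℚ R] [Algebra ℚ K] {S : Subalgebra R K} {q : E8 K} (hq : In S q)
    (x : Vec R) (k : Fin 8) : tht q (emL R K x) k ∈ S := by
  rw [tht_apply]
  exact S.sub_mem (rho_mem hq x k) (S.mul_mem (S.mul_mem (rat_mem S _) (tr8_mem hq))
    (S.algebraMap_mem _))

end basechange

section hartogs

variable {R : Type u} [CommRing R] [IsDomain R] {K : Type v} [Field K] [Algebra R K]

/-- an element of `K` which lies in all the charts lies in `R` -/
theorem exists_of_charts (hinj : Function.Injective (algebraMap R K)) {f : Vec R}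
    (hreg : HasReg (fL f) 6) {x : K} (hx : ∀ i, f i ≠ 0 → x ∈ chart K (f i)) :
    ∃ r : R, x = algebraMap R K r := by
  obtain ⟨rs, hlen, hrs, hmem⟩ := hreg
  match rs, hlen with
  | a :: b :: c :: rest, _ =>
    have h3 : IsWeaklyRegular R [a, b, c] :=
      ((isWeaklyRegular_append_iff R [a, b, c] rest).1 (by simpa using hrs)).1
    have hR := LicciCodimFour.Reg3.of_isWeaklyRegular h3
    have ha0 : a ≠ 0 := by
      rintro rfl
      exact one_ne_zero (hR.one 1 (zero_mul _))
    have ha : IsUnit (algebraMap R K a) :=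
      isUnit_iff_ne_zero.2 fun h => ha0 (hinj (by rw [h, map_zero]))
    have key : ∀ y ∈ a :: b :: c :: rest, x ∈ chart K y := by
      intro y hy
      obtain ⟨v, rfl⟩ := hmem y hy
      have hspan : fL f v ∈ Ideal.span (Set.range fun i : {i : Fin 8 // f i ≠ 0} => f i) := by
        rw [fL_apply, dot]
        refine Ideal.sum_mem _ fun i _ => ?_
        by_cases hi : f i = 0
        · rw [hi, zero_mul]
          exact Ideal.zero_mem _
        · exact Ideal.mul_mem_right _ _ (Ideal.subset_span ⟨⟨i, hi⟩, rfl⟩)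
      have := LicciCodimFour.mem_chart_of_cover (T := K) (fun i : {i : Fin 8 // f i ≠ 0} => f i) 1
        (fL f v) hspan (x := x) (fun i => by rw [one_mul]; exact hx i i.2)
      rwa [one_mul] at this
    exact LicciCodimFour.exists_eq_algebraMap_of_inter hinj hR ha (key a (by simp))
      (key b (by simp))

theorem exists_ne_zero {f : Vec R} (hreg : HasReg (fL f) 6) : ∃ i, f i ≠ 0 := by
  by_contra hcon
  push Not at hcon
  obtain ⟨rs, hlen, hrs, hmem⟩ := hreg
  match rs, hlen with
  | a :: rest, _ =>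
    obtain ⟨v, hv⟩ := hmem a (by simp)
    rw [fL_apply, dot] at hv
    simp only [hcon, zero_mul, Finset.sum_const_zero] at hv
    have h1 := ((isWeaklyRegular_cons_iff R a rest).1 hrs).1
    rw [← hv] at h1
    exact one_ne_zero (h1 (by simp : (0 : R) • (1 : R) = (0 : R) • (0 : R)))

end hartogs

end Pool.Agent.Licci.P
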