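import Pool.Agent.Work.MP_a98e4e_ag.P.Alg

/-!
# Module P, part 7: the components of degree `≥ 0` of `exp (n₁ + n₂ + n₃) F`
-/

set_option linter.unusedSectionVars false

namespace Pool.Agent.Licci.P

open scoped BigOperators
open U (Sup)

section

variable {A : Type*} [CommRing A]

theorem zle_add {a : ℤ} {x y : E8 A} (hx : Le zdg a x) (hy : Le zdg a y) : Le zdg a (x + y) :=
  fun m hm => by rw [Pi.add_apply, hx m hm, hy m hm, add_zero]

theorem zle_smul {a : ℤ} (c : A) {x : E8 A} (hx : Le zdg a x) : Le zdg a (c • x) :=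
  fun m hm => by rw [Pi.smul_apply, hx m hm, smul_zero]

theorem zle_mono {a b : ℤ} (h : a ≤ b) {x : E8 A} (hx : Le zdg a x) : Le zdg b x :=
  fun m hm => hx m (by omega)

theorem zsup_le {a : ℤ} {x : E8 A} (hx : Sup zdg a x) : Le zdg a x := fun m hm => hx m (by omega)

theorem zle_br {a b c : ℤ} (h : a + b ≤ c) {x y : E8 A} (hx : Le zdg a x) (hy : Le zdg b y) :
    Le zdg c (br x y) := zle_mono h (Le.br (fun _ _ _ h => sc_zdg h) hx hy)

theorem zsup_br {a b c : ℤ} (h : a + b = c) {x y : E8 A} (hx : Sup zdg a x) (hy : Sup zdg b y) :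
    Sup zdg c (br x y) := h ▸ (Sup.br (fun _ _ _ h => sc_zdg h) hx hy)

theorem zsup_add {a : ℤ} {x y : E8 A} (hx : Sup zdg a x) (hy : Sup zdg a y) : Sup zdg a (x + y) :=
  fun m hm => by rw [Pi.add_apply, hx m hm, hy m hm, add_zero]

theorem zsup_sub {a : ℤ} {x y : E8 A} (hx : Sup zdg a x) (hy : Sup zdg a y) : Sup zdg a (x - y) :=
  fun m hm => by rw [Pi.sub_apply, hx m hm, hy m hm, sub_zero]

theorem zsup_smul {a : ℤ} (c : A) {x : E8 A} (hx : Sup zdg a x) : Sup zdg a (c • x) :=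
  fun m hm => by rw [Pi.smul_apply, hx m hm, smul_zero]

end

section

variable {A : Type*} [CommRing A] [Algebra ℚ A]

theorem q1_sup {F n₁ n₂ : E8 A} (hF : Sup zdg 3 F) (h1 : Sup zdg (-1) n₁) (h2 : Sup zdg (-2) n₂) :
    Sup zdg 1 (q1 F n₁ n₂) :=
  zsup_add (zsup_br (by norm_num) h2 hF)
    (zsup_smul _ (zsup_br (b := 2) (by norm_num) h1 (zsup_br (by norm_num) h1 hF)))

theorem q0_sup {F n₁ n₂ : E8 A} (hF : Sup zdg 3 F) (h1 : Sup zdg (-1) n₁) (h2 : Sup zdg (-2) n₂) :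
    Sup zdg 0 (q0 F n₁ n₂) := by
  have a1 : Sup zdg 2 (br n₁ F) := zsup_br (by norm_num) h1 hF
  have a2 : Sup zdg 1 (br n₂ F) := zsup_br (by norm_num) h2 hF
  have a3 : Sup zdg 1 (br n₁ (br n₁ F)) := zsup_br (by norm_num) h1 a1
  exact zsup_add (zsup_smul _ (zsup_add (zsup_br (by norm_num) h1 a2) (zsup_br (by norm_num) h2 a1)))
    (zsup_smul _ (zsup_br (by norm_num) h1 a3))

theorem ex_comp {F n₁ n₂ n₃ : E8 A} (hF : Sup zdg 3 F) (h1 : Sup zdg (-1) n₁)
    (h2 : Sup zdg (-2) n₂) (h3 : Sup zdg (-3) n₃) : ∃ r : E8 A, Le zdg (-1) r ∧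
      ex (n₁ + n₂ + n₃) F = F + br n₁ F + q1 F n₁ n₂ + (br n₃ F + q0 F n₁ n₂) + r := by
  set N := n₁ + n₂ + n₃ with hN
  have l1 : Le zdg (-1) n₁ := zsup_le h1
  have l2 : Le zdg (-2) n₂ := zsup_le h2
  have l3 : Le zdg (-3) n₃ := zsup_le h3
  have lN : Le zdg (-1) N := zle_add (zle_add l1 (zle_mono (by norm_num) l2)) (zle_mono (by norm_num) l3)
  have f1 : Le zdg 2 (br n₁ F) := zsup_le (zsup_br (by norm_num) h1 hF)
  have f2 : Le zdg 1 (br n₂ F) := zsup_le (zsup_br (by norm_num) h2 hF)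
  have f3 : Le zdg 0 (br n₃ F) := zsup_le (zsup_br (by norm_num) h3 hF)
  have w1 : br N F = br n₁ F + br n₂ F + br n₃ F := by rw [hN, br_add_left, br_add_left]
  set r2 : E8 A := br n₁ (br n₃ F) + br n₂ (br n₂ F) + br n₃ (br n₁ F) + br n₂ (br n₃ F) +
    br n₃ (br n₂ F) + br n₃ (br n₃ F) with hr2
  have w2 : br N (br N F) = br n₁ (br n₁ F) + (br n₁ (br n₂ F) + br n₂ (br n₁ F)) + r2 := by
    rw [w1, hN, hr2]
    simp only [br_add_left, br_add_right]
    abel
  have lr2 : Le zdg (-1) r2 := by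
    refine zle_add (zle_add (zle_add (zle_add (zle_add ?_ ?_) ?_) ?_) ?_) ?_
    · exact zle_br (by norm_num) l1 f3
    · exact zle_br (by norm_num) l2 f2
    · exact zle_br (by norm_num) l3 f1
    · exact zle_br (by norm_num) l2 f3
    · exact zle_br (by norm_num) l3 f2
    · exact zle_br (by norm_num) l3 f3
  set r3 : E8 A := br n₂ (br n₁ (br n₁ F)) + br n₃ (br n₁ (br n₁ F)) +
    br N (br n₁ (br n₂ F) + br n₂ (br n₁ F)) + br N r2 with hr3
  have w3 : br N (br N (br N F)) = br n₁ (br n₁ (br n₁ F)) + r3 := by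
    rw [w2, hr3, br_add_right, br_add_right]
    have : br N (br n₁ (br n₁ F)) = br n₁ (br n₁ (br n₁ F)) + br n₂ (br n₁ (br n₁ F)) +
        br n₃ (br n₁ (br n₁ F)) := by rw [hN, br_add_left, br_add_left]
    rw [this]
    abel
  have g1 : Le zdg 1 (br n₁ (br n₁ F)) := zle_br (by norm_num) l1 f1
  have lr3 : Le zdg (-1) r3 := by
    refine zle_add (zle_add (zle_add ?_ ?_) ?_) ?_
    · exact zle_br (by norm_num) l2 g1
    · exact zle_br (by norm_num) l3 g1
    · refine zle_br (b := 0) (by norm_num) lN (zle_add ?_ ?_)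
      · exact zle_br (by norm_num) l1 f2
      · exact zle_br (by norm_num) l2 f1
    · exact zle_br (by norm_num) lN lr2
  have lk : ∀ k, 4 ≤ k → Le zdg (-1) (((brL N) ^ k) F) := by
    intro k hk
    have := br_pow_le (fun _ _ _ h => sc_zdg h) lN (le_three F) k
    exact zle_mono (by push_cast; omega) this
  refine ⟨algebraMap ℚ A (1 / 2) • r2 + algebraMap ℚ A (1 / 6) • r3 +
    (algebraMap ℚ A (((4 : ℕ).factorial : ℚ)⁻¹) • ((brL N) ^ 4) F +
    algebraMap ℚ A (((5 : ℕ).factorial : ℚ)⁻¹) • ((brL N) ^ 5) F +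
    algebraMap ℚ A (((6 : ℕ).factorial : ℚ)⁻¹) • ((brL N) ^ 6) F), ?_, ?_⟩
  · exact zle_add (zle_add (zle_smul _ lr2) (zle_smul _ lr3)) (zle_add (zle_add (zle_smul _ (lk 4 le_rfl))
      (zle_smul _ (lk 5 (by norm_num)))) (zle_smul _ (lk 6 (by norm_num))))
  · rw [ex_apply]
    simp only [Finset.sum_range_succ, Finset.sum_range_zero, zero_add]
    have p0 : ((brL N) ^ 0) F = F := by simp
    have p1 : ((brL N) ^ 1) F = br N F := by simp
    have p2 : ((brL N) ^ 2) F = br N (br N F) := by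
      rw [pow_two, Module.End.mul_apply, brL_apply, brL_apply]
    have p3 : ((brL N) ^ 3) F = br N (br N (br N F)) := by
      rw [pow_succ', Module.End.mul_apply, p2, brL_apply]
    rw [p0, p1, p2, p3, w3, w2, w1]
    have c0 : algebraMap ℚ A (((0 : ℕ).factorial : ℚ)⁻¹) = 1 := by norm_num
    have c1 : algebraMap ℚ A (((1 : ℕ).factorial : ℚ)⁻¹) = 1 := by norm_num
    have c2 : algebraMap ℚ A (((2 : ℕ).factorial : ℚ)⁻¹) = algebraMap ℚ A (1 / 2) := by
      norm_num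
    have c3 : algebraMap ℚ A (((3 : ℕ).factorial : ℚ)⁻¹) = algebraMap ℚ A (1 / 6) := by
      norm_num [Nat.factorial]
    rw [c0, c1, c2, c3]
    unfold q1 q0
    module

end

end Pool.Agent.Licci.P
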