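import Pool.Agent.Work.MP_a98e4e_ag.P.Brk
import Pool.Agent.Work.MP_a98e4e_ag.PPrime

/-!
# Module P, part 3: degree `1` and degree `-2` as alternating forms
-/

set_option linter.unusedSectionVars false

namespace Pool.Agent.Licci.P

open scoped BigOperators
open U (Sup)

set_option maxRecDepth 100000 in
theorem wtg_i1 : ∀ i j k : Fin 8, i < j → j < k → ∀ q, wtg q (i1 i j k) = 1 ↔
    (q = i ∨ q = j ∨ q = k) := by
  decide +kernel

set_option maxRecDepth 100000 in
theorem wtg_im2 : ∀ i j : Fin 8, i < j → ∀ q, wtg q (im2 i j) = 0 ↔ (q = i ∨ q = j) := by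
  decide +kernel

set_option maxRecDepth 100000 in
theorem i1_surj : ∀ m : Fin 248, zdg m = 1 → ∃ i j k : Fin 8, i < j ∧ j < k ∧ i1 i j k = m := by
  decide +kernel

set_option maxRecDepth 100000 in
theorem im2_surj : ∀ m : Fin 248, zdg m = -2 → ∃ i j : Fin 8, i < j ∧ im2 i j = m := by
  decide +kernel

theorem i1_inj {i j k i' j' k' : Fin 8} (h1 : i < j) (h2 : j < k) (h1' : i' < j') (h2' : j' < k')
    (he : i1 i j k = i1 i' j' k') : i = i' ∧ j = j' ∧ k = k' := by
  have a1 := (wtg_i1 i' j' k' h1' h2' i).1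
    (by rw [← he]; exact (wtg_i1 i j k h1 h2 i).2 (Or.inl rfl))
  have a2 := (wtg_i1 i' j' k' h1' h2' j).1
    (by rw [← he]; exact (wtg_i1 i j k h1 h2 j).2 (Or.inr (Or.inl rfl)))
  have a3 := (wtg_i1 i' j' k' h1' h2' k).1
    (by rw [← he]; exact (wtg_i1 i j k h1 h2 k).2 (Or.inr (Or.inr rfl)))
  omega

theorem im2_inj {i j i' j' : Fin 8} (h : i < j) (h' : i' < j') (he : im2 i j = im2 i' j') :
    i = i' ∧ j = j' := by
  have h1 := (wtg_im2 i' j' h' i).1 (by rw [← he]; exact (wtg_im2 i j h i).2 (Or.inl rfl))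
  have h2 := (wtg_im2 i' j' h' j).1 (by rw [← he]; exact (wtg_im2 i j h j).2 (Or.inr rfl))
  omega

section

variable {A : Type*} [CommRing A]

/-! ### linearity of `M1`, `W2` -/

/-- `M1` as a linear map -/
def M1L : (Fin 8 → Fin 8 → Fin 8 → A) →ₗ[A] E8 A where
  toFun := M1
  map_add' μ ν := by
    funext m
    rw [Pi.add_apply, M1_apply, M1_apply, M1_apply]
    simp only [← Finset.sum_add_distrib]
    refine Finset.sum_congr rfl fun i _ => Finset.sum_congr rfl fun j _ =>
      Finset.sum_congr rfl fun k _ => ?_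
    split_ifs
    · simp only [Pi.add_apply]
      ring
    · rw [add_zero]
  map_smul' c μ := by
    funext m
    rw [Pi.smul_apply, M1_apply, M1_apply, smul_eq_mul]
    simp only [Finset.mul_sum]
    refine Finset.sum_congr rfl fun i _ => Finset.sum_congr rfl fun j _ =>
      Finset.sum_congr rfl fun k _ => ?_
    split_ifs
    · simp only [Pi.smul_apply, smul_eq_mul, RingHom.id_apply]
      ring
    · rw [mul_zero]

/-- `W2` as a linear map -/
def W2L : (Fin 8 → Fin 8 → A) →ₗ[A] E8 A where
  toFun := W2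
  map_add' μ ν := by
    funext m
    rw [Pi.add_apply, W2_apply, W2_apply, W2_apply]
    simp only [← Finset.sum_add_distrib]
    refine Finset.sum_congr rfl fun i _ => Finset.sum_congr rfl fun j _ => ?_
    split_ifs
    · simp only [Pi.add_apply]
    · rw [add_zero]
  map_smul' c μ := by
    funext m
    rw [Pi.smul_apply, W2_apply, W2_apply, smul_eq_mul]
    simp only [Finset.mul_sum]
    refine Finset.sum_congr rfl fun i _ => Finset.sum_congr rfl fun j _ => ?_
    split_ifs
    · simp only [Pi.smul_apply, smul_eq_mul, RingHom.id_apply]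
    · rw [mul_zero]

@[simp] theorem M1L_apply (μ : Fin 8 → Fin 8 → Fin 8 → A) : M1L μ = M1 μ := rfl

@[simp] theorem W2L_apply (w : Fin 8 → Fin 8 → A) : W2L w = W2 w := rfl

theorem kap_M1 (Y : E8 A) (μ : Fin 8 → Fin 8 → Fin 8 → A) :
    kap Y (M1 μ) = - ∑ i : Fin 8, ∑ j : Fin 8, ∑ k : Fin 8,
      if i < j ∧ j < k then ((sg3 i j k : ℤ) : A) * μ i j k * Y (i1 i j k) else 0 := by
  unfold M1
  simp only [map_sum, ← Finset.sum_neg_distrib]
  refine Finset.sum_congr rfl fun i _ => Finset.sum_congr rfl fun j _ =>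
      Finset.sum_congr rfl fun k _ => ?_
  split_ifs with h
  · rw [map_smul, kap_im1 Y h.1 h.2, smul_eq_mul]
    ring
  · rw [map_zero, neg_zero]

theorem kap_W2 (Y : E8 A) (w : Fin 8 → Fin 8 → A) :
    kap Y (W2 w) = - ∑ i : Fin 8, ∑ j : Fin 8, if i < j then w i j * Y (im2 i j) else 0 := by
  unfold W2
  simp only [map_sum, ← Finset.sum_neg_distrib]
  refine Finset.sum_congr rfl fun i _ => Finset.sum_congr rfl fun j _ => ?_
  split_ifs with h
  · rw [map_smul, kap_i2 Y h, smul_eq_mul]
    ring
  · rw [map_zero, neg_zero]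

/-! ### `x ∧ y ∧ z` in degree `-1`, `x ∧ y` in degree `2` -/

/-- `x ∧ y ∧ z ∈ Λ³ F^*` -/
def D3 : (Vec A) [⋀^Fin 3]→ₗ[A] E8 A :=
  (M1L (A := A)).compAlternatingMap (AlternatingMap.pi fun a => AlternatingMap.pi fun p =>
    AlternatingMap.pi fun q =>
      (Matrix.detRowAlternating (R := A) (n := Fin 3)).compLinearMap (LinearMap.funLeft A A ![a, p, q]))

/-- `x ∧ y ∈ Λ² F^*` -/
def D2 : (Vec A) [⋀^Fin 2]→ₗ[A] E8 A :=
  (W2L (A := A)).compAlternatingMap (AlternatingMap.pi fun p => AlternatingMap.pi fun q =>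
      (Matrix.detRowAlternating (R := A) (n := Fin 2)).compLinearMap (LinearMap.funLeft A A ![p, q]))

/-- coefficients of `x ∧ y ∧ z` -/
def det3 (v : Fin 3 → Vec A) (a p q : Fin 8) : A :=
  v 0 a * v 1 p * v 2 q - v 0 a * v 1 q * v 2 p - v 0 p * v 1 a * v 2 q + v 0 p * v 1 q * v 2 a +
    v 0 q * v 1 a * v 2 p - v 0 q * v 1 p * v 2 a

/-- coefficients of `x ∧ y` -/
def det2 (v : Fin 2 → Vec A) (p q : Fin 8) : A := v 0 p * v 1 q - v 0 q * v 1 p

theorem D3_apply (v : Fin 3 → Vec A) : D3 v = M1 (det3 v) := by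
  unfold D3
  rw [LinearMap.compAlternatingMap_apply, M1L_apply]
  congr 1
  funext a p q
  change Matrix.det (Matrix.of fun i j => v i (![a, p, q] j)) = det3 v a p q
  rw [Matrix.det_fin_three]
  rfl

theorem D2_apply (v : Fin 2 → Vec A) : D2 v = W2 (det2 v) := by
  unfold D2
  rw [LinearMap.compAlternatingMap_apply, W2L_apply]
  congr 1
  funext p q
  change Matrix.det (Matrix.of fun i j => v i (![p, q] j)) = det2 v p q
  rw [Matrix.det_fin_two]
  rfl

theorem br_D3_V3 (v : Fin 3 → Vec A) (f : Vec A) :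
    br (D3 v) (V3 f) = ∑ i : Fin 3, ((-1 : A) ^ (i : ℕ) * dot f (v i)) • D2 (i.removeNth v) := by
  have hs : Sup zdg (-1 + 3) (br (D3 v) (V3 f)) := by
    rw [D3_apply]
    exact Sup.br (fun _ _ _ h => sc_zdg h) (M1_sup _) (V3_sup f)
  have h1 := eq_V3_W2 (Y := br (D3 v) (V3 f)) (fun m hm => hs m (by
    change zdg m ≠ _
    omega))
  have h2 : p3 (br (D3 v) (V3 f)) = 0 := by
    funext i
    refine hs _ ?_
    change zdg (ix (i : ℕ)) ≠ _
    rw [zdg_lt8]
    norm_num
  have hV : V3 (0 : Vec A) = 0 := by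
    rw [V3_eq_sum]
    simp
  rw [h2, hV, zero_add] at h1
  rw [h1]
  simp only [D2_apply, ← W2L_apply, ← map_smul, ← map_sum]
  congr 1
  funext p q
  have hM : Le zdg (-1) (D3 v : E8 A) := by
    rw [D3_apply]
    intro m hm
    exact M1_sup _ m (by omega)
  rw [w2_m1 hM, D3_apply]
  have e : ∀ a, t1 (M1 (det3 v)) a p q = det3 v a p q := by
    intro a
    refine t1_M1 _ ?_ ?_ ?_ a p q <;> intros <;> unfold det3 <;> ring
  simp only [e, V3_apply_ix, Finset.sum_apply, Pi.smul_apply, smul_eq_mul, Fin.sum_univ_three]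
  have r0 : (0 : Fin 3).removeNth v = ![v 1, v 2] := by
    funext i; fin_cases i <;> rfl
  have r1 : (1 : Fin 3).removeNth v = ![v 0, v 2] := by
    funext i; fin_cases i <;> rfl
  have r2 : (2 : Fin 3).removeNth v = ![v 0, v 1] := by
    funext i; fin_cases i <;> rfl
  rw [r0, r1, r2]
  simp only [det2, Matrix.cons_val_zero, Matrix.cons_val_one, dot, Finset.sum_mul, Finset.mul_sum,
    ← Finset.sum_add_distrib, det3]
  refine Finset.sum_congr rfl fun a _ => ?_
  simp
  ring

end

section forms

variable {R K : Type*} [CommRing R] [CommRing K] [Algebra R K]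

/-- `Vec R → Vec K` -/
def emL (R K : Type*) [CommRing R] [CommRing K] [Algebra R K] : Vec R →ₗ[R] Vec K :=
  (Algebra.linearMap R K).compLeft (Fin 8)

theorem emL_apply (v : Vec R) (i : Fin 8) : emL R K v i = algebraMap R K (v i) := rfl

/-- the linear form `x ↦ ∑ f_i x_i` -/
def fL (f : Vec R) : Vec R →ₗ[R] R := Fintype.linearCombination R f

theorem fL_apply (f x : Vec R) : fL f x = dot f x := by
  simp only [fL, Fintype.linearCombination_apply, dot, smul_eq_mul]
  exact Finset.sum_congr rfl fun i _ => mul_comm _ _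

theorem dot_em (f x : Vec R) : dot (emL R K f) (emL R K x) = algebraMap R K (dot f x) := by
  simp only [dot, emL_apply, map_sum, map_mul]

/-- restriction of scalars for alternating maps on `Vec` -/
def altR (R : Type*) {K : Type*} [CommRing R] [CommRing K] [Algebra R K] {n : ℕ}
    (ω : (Vec K) [⋀^Fin n]→ₗ[K] K) : (Vec R) [⋀^Fin n]→ₗ[R] K where
  toFun v := ω fun i => emL R K (v i)
  map_update_add' := by
    intro inst v i x y
    obtain rfl : inst = instDecidableEqFin n := Subsingleton.elim _ _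
    have e : ∀ z, (fun j => emL R K (Function.update v i z j)) =
        Function.update (fun j => emL R K (v j)) i (emL R K z) := by
      intro z
      funext j
      by_cases h : j = i
      · subst h; simp
      · simp [h]
    change ω (fun j => emL R K (Function.update v i (x + y) j)) =
      ω (fun j => emL R K (Function.update v i x j)) + ω (fun j => emL R K (Function.update v i y j))
    rw [e, e, e, map_add, AlternatingMap.map_update_add]
  map_update_smul' := by
    intro inst v i c x
    obtain rfl : inst = instDecidableEqFin n := Subsingleton.elim _ _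
    have e : ∀ z, (fun j => emL R K (Function.update v i z j)) =
        Function.update (fun j => emL R K (v j)) i (emL R K z) := by
      intro z
      funext j
      by_cases h : j = i
      · subst h; simp
      · simp [h]
    have e2 : emL R K (c • x) = algebraMap R K c • emL R K x := by
      rw [map_smul, algebraMap_smul]
    change ω (fun j => emL R K (Function.update v i (c • x) j)) =
      c • ω (fun j => emL R K (Function.update v i x j))
    rw [e, e, e2, AlternatingMap.map_update_smul, algebraMap_smul]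
  map_eq_zero_of_eq' := by
    intro v i j h hij
    exact ω.map_eq_zero_of_eq _ (by simp only [h]) hij

theorem altR_apply {n : ℕ} (ω : (Vec K) [⋀^Fin n]→ₗ[K] K) (v : Fin n → Vec R) :
    altR R ω v = ω fun i => emL R K (v i) := rfl

/-- the `3`-form of the component of degree `1` -/
def al3 (R : Type*) {K : Type*} [CommRing R] [CommRing K] [Algebra R K] (Y : E8 K) :
    (Vec R) [⋀^Fin 3]→ₗ[R] K :=
  altR R ((kap Y : E8 K →ₗ[K] K).compAlternatingMap D3)

/-- the `2`-form of the component of degree `-2` -/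
def be2 (R : Type*) {K : Type*} [CommRing R] [CommRing K] [Algebra R K] (Y : E8 K) :
    (Vec R) [⋀^Fin 2]→ₗ[R] K :=
  altR R (((-kap Y) : E8 K →ₗ[K] K).compAlternatingMap D2)

theorem al3_apply (Y : E8 K) (v : Fin 3 → Vec R) :
    al3 R Y v = kap Y (D3 fun i => emL R K (v i)) := by
  rw [al3, altR_apply, LinearMap.compAlternatingMap_apply]

theorem be2_apply (Y : E8 K) (v : Fin 2 → Vec R) :
    be2 R Y v = - kap Y (D2 fun i => emL R K (v i)) := by
  rw [be2, altR_apply, LinearMap.compAlternatingMap_apply, LinearMap.neg_apply]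

theorem al3_add (Y Z : E8 K) : al3 R (Y + Z) = al3 R Y + al3 R Z := by
  ext v
  simp [al3_apply]

theorem al3_sub (Y Z : E8 K) : al3 R (Y - Z) = al3 R Y - al3 R Z := by
  ext v
  simp [al3_apply]

/-- `[M, f]` is `f ∧ M` -/
theorem al3_br (M : E8 K) (f : Vec R) :
    al3 R (br M (V3 (emL R K f))) = wedge (fL f) 2 (be2 R M) := by
  ext v
  rw [al3_apply, wedge_apply, kap_br, br_skew, map_neg, br_D3_V3, map_sum, ← Finset.sum_neg_distrib]
  refine Finset.sum_congr rfl fun i _ => ?_
  rw [map_smul, be2_apply, fL_apply, dot_em, smul_eq_mul]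
  have e : (i.removeNth fun j => emL R K (v j)) = fun j => emL R K (i.removeNth v j) := rfl
  rw [e]
  have h0 : (((-1 : ℤ) ^ (i : ℕ) : ℤ) : K) = (-1 : K) ^ (i : ℕ) := by push_cast; rfl
  rw [← h0, ← Int.cast_smul_eq_zsmul K, smul_eq_mul, Algebra.smul_def]
  ring

/-- alternating `3`-maps agree if they agree on sorted triples of basis vectors -/
theorem alt3_ext {N : Type*} [AddCommGroup N] [Module R N] {ω ω' : (Vec R) [⋀^Fin 3]→ₗ[R] N}
    (h : ∀ i j k : Fin 8, i < j → j < k →
      ω ![Pi.single i 1, Pi.single j 1, Pi.single k 1] =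
        ω' ![Pi.single i 1, Pi.single j 1, Pi.single k 1]) : ω = ω' := by
  refine Module.Basis.ext_alternating (Pi.basisFun R (Fin 8)) fun v _ => ?_
  have e : (fun i => Pi.basisFun R (Fin 8) (v i)) =
      ![Pi.single (v 0) 1, Pi.single (v 1) 1, Pi.single (v 2) 1] := by
    funext i
    fin_cases i <;> simp [Pi.basisFun_apply]
  rw [e, ← sub_eq_zero]
  refine alt3_zero (fun i j k => ω ![Pi.single i 1, Pi.single j 1, Pi.single k 1] -
    ω' ![Pi.single i 1, Pi.single j 1, Pi.single k 1]) ?_ ?_ ?_ ?_ _ _ _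
  · intro i j k
    have sw : (![Pi.single i 1, Pi.single j 1, Pi.single k 1] : Fin 3 → Vec R) =
        ![Pi.single j 1, Pi.single i 1, Pi.single k 1] ∘ Equiv.swap 0 1 := by
      funext l
      fin_cases l <;> simp [Equiv.swap_apply_def]
    rw [sw, AlternatingMap.map_swap _ _ (by decide), AlternatingMap.map_swap _ _ (by decide)]
    abel
  · intro i j k
    have sw : (![Pi.single i 1, Pi.single j 1, Pi.single k 1] : Fin 3 → Vec R) =
        ![Pi.single i 1, Pi.single k 1, Pi.single j 1] ∘ Equiv.swap 1 2 := by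
      funext l
      fin_cases l <;> simp [Equiv.swap_apply_def]
    rw [sw, AlternatingMap.map_swap _ _ (by decide), AlternatingMap.map_swap _ _ (by decide)]
    abel
  · intro i k
    rw [AlternatingMap.map_eq_zero_of_eq ω _ (i := 0) (j := 1) (by simp) (by decide),
      AlternatingMap.map_eq_zero_of_eq ω' _ (i := 0) (j := 1) (by simp) (by decide), sub_zero]
  · intro i j k hij hjk
    rw [h i j k hij hjk, sub_self]

/-- alternating `2`-maps agree if they agree on sorted pairs of basis vectors -/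
theorem alt2_ext {N : Type*} [AddCommGroup N] [Module R N] {ω ω' : (Vec R) [⋀^Fin 2]→ₗ[R] N}
    (h : ∀ i j : Fin 8, i < j →
      ω ![Pi.single i 1, Pi.single j 1] = ω' ![Pi.single i 1, Pi.single j 1]) : ω = ω' := by
  refine Module.Basis.ext_alternating (Pi.basisFun R (Fin 8)) fun v hv => ?_
  have e : (fun i => Pi.basisFun R (Fin 8) (v i)) = ![Pi.single (v 0) 1, Pi.single (v 1) 1] := by
    funext i
    fin_cases i <;> simp [Pi.basisFun_apply]
  rw [e]
  rcases lt_trichotomy (v 0) (v 1) with h1 | h1 | h1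
  · exact h _ _ h1
  · exact absurd (hv h1) (by decide)
  · have sw : (![Pi.single (v 0) 1, Pi.single (v 1) 1] : Fin 2 → Vec R) =
        ![Pi.single (v 1) 1, Pi.single (v 0) 1] ∘ Equiv.swap 0 1 := by
      funext l
      fin_cases l <;> simp [Equiv.swap_apply_def]
    rw [sw, AlternatingMap.map_swap _ _ (by decide), AlternatingMap.map_swap _ _ (by decide),
      h _ _ h1]

/-- value of the `3`-form on sorted basis vectors -/
theorem al3_single (Y : E8 K) {a b c : Fin 8} (hab : a < b) (hbc : b < c) :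
    al3 R Y ![Pi.single a 1, Pi.single b 1, Pi.single c 1] = -(((sg3 a b c : ℤ) : K) * Y (i1 a b c)) := by
  rw [al3_apply, D3_apply, kap_M1]
  have e : ∀ i j k : Fin 8, i < j → j < k → det3 (fun i => emL R K
      ((![Pi.single a 1, Pi.single b 1, Pi.single c 1] : Fin 3 → Vec R) i)) i j k =
        if i = a ∧ j = b ∧ k = c then 1 else 0 := by
    intro i j k hij hjk
    simp only [det3, emL_apply, Matrix.cons_val_zero, Matrix.cons_val_one, Matrix.cons_val_two,
      Matrix.cons_val, Matrix.tail_cons, Matrix.head_cons, Pi.single_apply]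
    by_cases h1 : i = a <;> by_cases h2 : j = b <;> by_cases h3 : k = c <;>
    by_cases h4 : i = b <;> by_cases h5 : i = c <;> by_cases h6 : j = a <;> by_cases h7 : j = c <;>
    by_cases h8 : k = a <;> by_cases h9 : k = b <;> first | omega | simp [h1, h2, h3, h4, h5, h6, h7, h8, h9, hab.ne, hab.ne', hbc.ne, hbc.ne',
      (hab.trans hbc).ne, (hab.trans hbc).ne']
  congr 1
  rw [Finset.sum_eq_single a, Finset.sum_eq_single b, Finset.sum_eq_single c]
  · rw [if_pos ⟨hab, hbc⟩, e a b c hab hbc, if_pos ⟨rfl, rfl, rfl⟩, mul_one]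
  · intro k _ hk
    split_ifs with h
    · rw [e a b k h.1 h.2, if_neg (fun h' => hk h'.2.2)]
      ring
    · rfl
  · simp
  · intro j _ hj
    refine Finset.sum_eq_zero fun k _ => ?_
    split_ifs with h
    · rw [e a j k h.1 h.2, if_neg (fun h' => hj h'.2.1)]
      ring
    · rfl
  · simp
  · intro i _ hi
    refine Finset.sum_eq_zero fun j _ => Finset.sum_eq_zero fun k _ => ?_
    split_ifs with h
    · rw [e i j k h.1 h.2, if_neg (fun h' => hi h'.1)]
      ring
    · rfl
  · simp

end forms

end Pool.Agent.Licci.P
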