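import Pool.Agent.Work.MP_a98e4e_ag.P.Frm

/-!
# Module P, part 4: elements of degree `1`, `-2` and `0` from forms
-/

set_option linter.unusedSectionVars false

namespace Pool.Agent.Licci.P

open scoped BigOperators
open U (Sup)

section

variable {A : Type*} [CommRing A]

/-- inclusion of `Λ³ F` in degree `1` (only the coefficients with `i < j < k` are used) -/
def T1 (c : Fin 8 → Fin 8 → Fin 8 → A) : E8 A :=
  ∑ i, ∑ j, ∑ k, if i < j ∧ j < k then (-(((sg3 i j k : ℤ) : A) * c i j k)) • eb (i1 i j k) else 0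

/-- inclusion of `Λ² F` in degree `-2` (only the coefficients with `i < j` are used) -/
def U2 (w : Fin 8 → Fin 8 → A) : E8 A := ∑ i, ∑ j, if i < j then w i j • eb (im2 i j) else 0

theorem T1_apply (c : Fin 8 → Fin 8 → Fin 8 → A) (m : Fin 248) :
    T1 c m = ∑ i, ∑ j, ∑ k, if (i < j ∧ j < k) ∧ i1 i j k = m then
      -(((sg3 i j k : ℤ) : A) * c i j k) else 0 := by
  unfold T1
  rw [Finset.sum_apply]
  refine Finset.sum_congr rfl fun i _ => ?_
  rw [Finset.sum_apply]
  refine Finset.sum_congr rfl fun j _ => ?_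
  rw [Finset.sum_apply]
  refine Finset.sum_congr rfl fun k _ => ?_
  by_cases h : i < j ∧ j < k
  · rw [if_pos h, Pi.smul_apply, eb_apply, smul_eq_mul]
    by_cases h' : i1 i j k = m
    · rw [if_pos h'.symm, if_pos ⟨h, h'⟩, mul_one]
    · rw [if_neg (Ne.symm h'), if_neg (fun h'' => h' h''.2), mul_zero]
  · rw [if_neg h, if_neg (fun h'' => h h''.1)]
    rfl

theorem U2_apply (w : Fin 8 → Fin 8 → A) (m : Fin 248) :
    U2 w m = ∑ i, ∑ j, if i < j ∧ im2 i j = m then w i j else 0 := by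
  unfold U2
  rw [Finset.sum_apply]
  refine Finset.sum_congr rfl fun i _ => ?_
  rw [Finset.sum_apply]
  refine Finset.sum_congr rfl fun j _ => ?_
  by_cases h : i < j
  · rw [if_pos h, Pi.smul_apply, eb_apply, smul_eq_mul]
    by_cases h' : im2 i j = m
    · rw [if_pos h'.symm, if_pos ⟨h, h'⟩, mul_one]
    · rw [if_neg (Ne.symm h'), if_neg (fun h'' => h' h''.2), mul_zero]
  · rw [if_neg h, if_neg (fun h'' => h h''.1)]
    rfl

theorem T1_apply_i1 (c : Fin 8 → Fin 8 → Fin 8 → A) {i j k : Fin 8} (h1 : i < j) (h2 : j < k) :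
    T1 c (i1 i j k) = -(((sg3 i j k : ℤ) : A) * c i j k) := by
  rw [T1_apply, Finset.sum_eq_single i, Finset.sum_eq_single j, Finset.sum_eq_single k]
  · rw [if_pos ⟨⟨h1, h2⟩, rfl⟩]
  · intro b _ hb
    rw [if_neg]
    rintro ⟨⟨h3, h4⟩, h5⟩
    exact hb (i1_inj h3 h4 h1 h2 h5).2.2
  · simp
  · intro b _ hb
    refine Finset.sum_eq_zero fun c _ => ?_
    rw [if_neg]
    rintro ⟨⟨h3, h4⟩, h5⟩
    exact hb (i1_inj h3 h4 h1 h2 h5).2.1
  · simp
  · intro b _ hb
    refine Finset.sum_eq_zero fun c _ => Finset.sum_eq_zero fun d _ => ?_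
    rw [if_neg]
    rintro ⟨⟨h3, h4⟩, h5⟩
    exact hb (i1_inj h3 h4 h1 h2 h5).1
  · simp

theorem U2_apply_im2 (w : Fin 8 → Fin 8 → A) {i j : Fin 8} (h : i < j) :
    U2 w (im2 i j) = w i j := by
  rw [U2_apply, Finset.sum_eq_single i, Finset.sum_eq_single j]
  · rw [if_pos ⟨h, rfl⟩]
  · intro b _ hb
    rw [if_neg]
    rintro ⟨h1, h2⟩
    exact hb (im2_inj h1 h h2).2
  · simp
  · intro b _ hb
    refine Finset.sum_eq_zero fun c _ => ?_
    rw [if_neg]
    rintro ⟨h1, h2⟩
    exact hb (im2_inj h1 h h2).1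
  · simp

theorem T1_sup (c : Fin 8 → Fin 8 → Fin 8 → A) : Sup zdg 1 (T1 c) := by
  intro m hm
  rw [T1_apply]
  refine Finset.sum_eq_zero fun i _ => Finset.sum_eq_zero fun j _ => Finset.sum_eq_zero fun k _ => ?_
  rw [if_neg]
  rintro ⟨⟨h1, h2⟩, rfl⟩
  exact hm (zdg_i1 i j k h1 h2)

theorem U2_sup (w : Fin 8 → Fin 8 → A) : Sup zdg (-2) (U2 w) := by
  intro m hm
  rw [U2_apply]
  refine Finset.sum_eq_zero fun i _ => Finset.sum_eq_zero fun j _ => ?_
  rw [if_neg]
  rintro ⟨h1, rfl⟩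
  exact hm (neg_chk2 i j h1).2.1

end

section forms

variable {R K : Type*} [CommRing R] [CommRing K] [Algebra R K]

theorem sg3_cast_sq (i j k : Fin 8) : ((sg3 i j k : ℤ) : K) * ((sg3 i j k : ℤ) : K) = 1 := by
  rw [← Int.cast_mul, sg3_sq, Int.cast_one]

theorem al3_inj {Y : E8 K} (hY : Sup zdg 1 Y) (h : al3 R Y = 0) : Y = 0 := by
  funext m
  by_cases hm : zdg m = 1
  · obtain ⟨i, j, k, hij, hjk, rfl⟩ := i1_surj m hm
    have h1 := al3_single (R := R) Y hij hjk
    rw [h] at h1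
    have h2 := sg3_cast_sq (K := K) i j k
    rw [AlternatingMap.zero_apply] at h1
    rw [Pi.zero_apply]
    linear_combination (-(Y (i1 i j k))) * h2 + ((sg3 i j k : ℤ) : K) * h1
  · rw [hY m hm, Pi.zero_apply]

/-- every `3`-form over `R` comes from an element of degree `1` -/
theorem al3_surj (P : (Vec R) [⋀^Fin 3]→ₗ[R] R) : ∃ Y : E8 R, Sup zdg 1 Y ∧
    ∀ v, al3 R (algebraMap R K ∘ Y : E8 K) v = algebraMap R K (P v) := by
  refine ⟨T1 fun i j k => P ![Pi.single i 1, Pi.single j 1, Pi.single k 1], T1_sup _, fun v => ?_⟩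
  have h : al3 R (algebraMap R K ∘ (T1 fun i j k => P ![Pi.single i 1, Pi.single j 1,
      Pi.single k 1]) : E8 K) = (Algebra.linearMap R K).compAlternatingMap P := by
    refine alt3_ext fun i j k hij hjk => ?_
    rw [al3_single _ hij hjk, Function.comp_apply, T1_apply_i1 _ hij hjk,
      LinearMap.compAlternatingMap_apply, Algebra.linearMap_apply, map_neg, map_mul, map_intCast]
    have h2 := sg3_cast_sq (K := K) i j k
    linear_combination (algebraMap R K (P ![Pi.single i 1, Pi.single j 1, Pi.single k 1])) * h2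
  rw [h]
  rfl

theorem be2_single (Y : E8 K) {a b : Fin 8} (hab : a < b) :
    be2 R Y ![Pi.single a 1, Pi.single b 1] = Y (im2 a b) := by
  rw [be2_apply, D2_apply, kap_W2, neg_neg]
  have e : ∀ i j : Fin 8, i < j → det2 (fun i => emL R K
      ((![Pi.single a 1, Pi.single b 1] : Fin 2 → Vec R) i)) i j =
        if i = a ∧ j = b then 1 else 0 := by
    intro i j hij
    simp only [det2, emL_apply, Matrix.cons_val_zero, Matrix.cons_val_one, Pi.single_apply]
    by_cases h1 : i = a <;> by_cases h2 : j = b <;> by_cases h4 : i = b <;> by_cases h6 : j = a <;>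
      first | omega | simp [h1, h2, h4, h6, hab.ne, hab.ne']
  rw [Finset.sum_eq_single a, Finset.sum_eq_single b]
  · rw [if_pos hab, e a b hab, if_pos ⟨rfl, rfl⟩, one_mul]
  · intro j _ hj
    split_ifs with h
    · rw [e a j h, if_neg (fun h' => hj h'.2), zero_mul]
    · rfl
  · simp
  · intro i _ hi
    refine Finset.sum_eq_zero fun j _ => ?_
    split_ifs with h
    · rw [e i j h, if_neg (fun h' => hi h'.1), zero_mul]
    · rfl
  · simp

/-- every `2`-form with values in `K` comes from an element of degree `-2` -/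
theorem be2_surj (β : (Vec R) [⋀^Fin 2]→ₗ[R] K) : ∃ M : E8 K, Sup zdg (-2) M ∧ be2 R M = β ∧
    ∀ S : Subalgebra R K, (∀ v, β v ∈ S) → ∀ m, M m ∈ S := by
  refine ⟨U2 fun i j => β ![Pi.single i 1, Pi.single j 1], U2_sup _, ?_, ?_⟩
  · refine alt2_ext fun i j hij => ?_
    rw [be2_single _ hij, U2_apply_im2 _ hij]
  · intro S hS m
    rw [U2_apply]
    refine S.sum_mem fun i _ => S.sum_mem fun j _ => ?_
    split_ifs
    · exact hS _
    · exact S.zero_mem

end forms

end Pool.Agent.Licci.P
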