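import Pool.Agent.Work.MP_a98e4e_ag.L.Exp
import Pool.Agent.Work.MP_a98e4e_ag.L.Grad
import Pool.Agent.Work.MP_a98e4e_ag.E.KChk1

/-!
# Module P, part 1: the invariant bilinear form of `e_8`

`kap (e_b) (e_-b) = -1` for every root `b`; on the Cartan part it is the Cartan matrix.
-/

set_option linter.unusedSectionVars false

namespace Pool.Agent.Licci.P

open scoped BigOperators
open U (Sup)

/-- coefficients of the invariant form -/
def kN (i j : ℕ) : ℤ := kcN i j

theorem kN_symm {i j : ℕ} (hi : i < 248) (hj : j < 248) : kN i j = kN j i := by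
  unfold kN kcN
  rcases lt_or_ge i 240 with h1 | h1 <;> rcases lt_or_ge j 240 with h2 | h2
  · rw [blt_true h1, blt_true h2]
    simp only [cond_true]
    rw [show Nat.add (cd i) (cd j) = Nat.add (cd j) (cd i) from Nat.add_comm _ _]
  · rw [blt_true h1, blt_false h2]
    simp
  · rw [blt_false h1, blt_true h2]
    simp
  · rw [blt_false h1, blt_false h2]
    simp only [cond_false]
    have h : ∀ a < 8, ∀ b < 8, prN (gens.getD a 0) b = prN (gens.getD b 0) a := by decide +kernel
    exact h _ (by omega) _ (by omega)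

theorem kN_wt {i j : ℕ} (hi : i < 248) (hj : j < 248) (h : kN i j ≠ 0) :
    cd i + cd j = off + off := by
  unfold kN kcN at h
  rcases lt_or_ge i 240 with h1 | h1 <;> rcases lt_or_ge j 240 with h2 | h2
  · rw [blt_true h1, blt_true h2] at h
    simp only [cond_true] at h
    cases h3 : Nat.beq (Nat.add (cd i) (cd j)) 1145324612 with
    | true =>
      rw [← off2]
      simpa using h3
    | false => rw [h3] at h; simp at h
  · rw [blt_true h1, blt_false h2] at h
    simp at h
  · rw [blt_false h1, blt_true h2] at h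
    simp at h
  · rw [cd_cartan h1 hi, cd_cartan h2 hj]

theorem kl_eq_map (L : List (ℕ × ℤ)) (k : ℕ) : kl L k = (L.map (fun p => p.2 * kN p.1 k)).sum := by
  induction L with
  | nil => rfl
  | cons p L ih =>
    rw [List.map_cons, List.sum_cons, ← ih]
    rfl

theorem sum_of_ick {i j k : Fin 248} (h : iv i j k = true) :
    ∑ m : Fin 248, scN i j m * kN m k = ∑ m : Fin 248, scN j k m * kN i m := by
  have h0 := (isz_iff _).1 h
  rw [kl_eq_map, kl_eq_map] at h0
  have e1 := sum_cf (sp i j) (fun p hp => sp_rng i.2 j.2 hp) (fun m => kN m k)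
  have e2 := sum_cf (sp j k) (fun p hp => sp_rng j.2 k.2 hp) (fun m => kN m i)
  simp only [scN] at *
  rw [e1]
  rw [show ∑ m : Fin 248, cf (sp j k) m * kN i m = ∑ m : Fin 248, cf (sp j k) m * kN m i from
    Finset.sum_congr rfl fun m _ => by rw [kN_symm i.2 m.2], e2]
  linarith

theorem kN_inv (i j k : Fin 248) :
    ∑ m : Fin 248, scN i j m * kN m k = ∑ m : Fin 248, scN j k m * kN i m := by
  have h := all_range (all_range ivc_all i.2) j.2
  by_cases hw : cd i + cd j + cd k = off + off + off
  · unfold ivc at h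
    simp only at h
    rcases lt_or_ge (k : ℕ) 240 with h5 | h5
    · have e : Nat.sub 2290649224 (Nat.add (cd i) (cd j)) = cd k + off := by
        change 2290649224 - (cd i + cd j) = _
        have : (2290649224 : ℕ) = off + off + off + off := rfl
        omega
      rw [e, fnd_cd h5, blt_true h5, cond_true] at h
      exact sum_of_ick h
    · have e : Nat.sub 2290649224 (Nat.add (cd i) (cd j)) = off + off := by
        change 2290649224 - (cd i + cd j) = _
        have h6 := cd_cartan h5 k.2
        have : (2290649224 : ℕ) = off + off + off + off := rfl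
        omega
      have e3 : ¬ fnd (off + off) < 240 := by
        intro h6
        have h7 := fnd_spec h6
        have h8 : (fnd (off + off) : ℕ) = 255 := by decide +kernel
        omega
      rw [e] at h
      have e4 : Nat.blt (fnd (off + off)) 240 = false := blt_false (by omega)
      have e5 : Nat.beq (off + off) 1145324612 = true := by decide
      rw [e4, cond_false, e5, cond_true] at h
      have h9 := all_range h (i := (k : ℕ) - 240) (by omega)
      have e6 : 240 + ((k : ℕ) - 240) = k := by omega
      rw [e6] at h9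
      exact sum_of_ick h9
  · have l0 : ∀ m : Fin 248, scN i j m * kN m k = 0 := by
      intro m
      by_contra hne
      have h1 := scN_wt i.2 j.2 (left_ne_zero_of_mul hne)
      have h2 := kN_wt m.2 k.2 (right_ne_zero_of_mul hne)
      omega
    have r0 : ∀ m : Fin 248, scN j k m * kN i m = 0 := by
      intro m
      by_contra hne
      have h1 := scN_wt j.2 k.2 (left_ne_zero_of_mul hne)
      have h2 := kN_wt i.2 m.2 (right_ne_zero_of_mul hne)
      omega
    rw [Finset.sum_eq_zero fun m _ => l0 m, Finset.sum_eq_zero fun m _ => r0 m]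

section

variable {A : Type*} [CommRing A]

/-- the invariant form -/
def kap : E8 A →ₗ[A] E8 A →ₗ[A] A :=
  LinearMap.mk₂ A (fun x y => ∑ i : Fin 248, ∑ j : Fin 248, (kN i j : A) * (x i * y j))
    (by intro x x' y; simp only [Pi.add_apply, ← Finset.sum_add_distrib]
        refine Finset.sum_congr rfl fun i _ => Finset.sum_congr rfl fun j _ => ?_; ring)
    (by intro a x y
        simp only [Pi.smul_apply, smul_eq_mul, Finset.mul_sum]
        refine Finset.sum_congr rfl fun i _ => Finset.sum_congr rfl fun j _ => ?_; ring)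
    (by intro x y y'; simp only [Pi.add_apply, ← Finset.sum_add_distrib]
        refine Finset.sum_congr rfl fun i _ => Finset.sum_congr rfl fun j _ => ?_; ring)
    (by intro a x y
        simp only [Pi.smul_apply, smul_eq_mul, Finset.mul_sum]
        refine Finset.sum_congr rfl fun i _ => Finset.sum_congr rfl fun j _ => ?_; ring)

theorem kap_apply (x y : E8 A) :
    kap x y = ∑ i : Fin 248, ∑ j : Fin 248, (kN i j : A) * (x i * y j) := rfl

theorem kap_eb_right (x : E8 A) (j : Fin 248) :
    kap x (eb j) = ∑ i : Fin 248, (kN i j : A) * x i := by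
  rw [kap_apply]
  refine Finset.sum_congr rfl fun i _ => ?_
  rw [Finset.sum_eq_single j]
  · simp [eb_apply]
  · intro b _ hb
    simp [eb_apply, hb]
  · simp

theorem kap_eb_left (i : Fin 248) (y : E8 A) :
    kap (eb i) y = ∑ j : Fin 248, (kN i j : A) * y j := by
  rw [kap_apply, Finset.sum_eq_single i]
  · refine Finset.sum_congr rfl fun j _ => ?_
    simp [eb_apply]
  · intro b _ hb
    refine Finset.sum_eq_zero fun j _ => ?_
    simp [eb_apply, hb]
  · simp

/-- invariance -/
theorem kap_br (x y z : E8 A) : kap (br x y) z = kap x (br y z) := by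
  have key : ∀ i j k : Fin 248, kap (br (eb i : E8 A) (eb j)) (eb k) = kap (eb i) (br (eb j) (eb k)) := by
    intro i j k
    rw [kap_eb_right, kap_eb_left]
    simp only [br_eb_eb, sc]
    have h := congrArg (fun n : ℤ => (n : A)) (kN_inv i j k)
    push_cast at h
    calc ∑ m : Fin 248, ((kN m k : ℤ) : A) * ((scN i j m : ℤ) : A)
        = ∑ m : Fin 248, ((scN i j m : ℤ) : A) * ((kN m k : ℤ) : A) :=
          Finset.sum_congr rfl fun m _ => mul_comm _ _
      _ = ∑ m : Fin 248, ((scN j k m : ℤ) : A) * ((kN i m : ℤ) : A) := h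
      _ = _ := Finset.sum_congr rfl fun m _ => mul_comm _ _
  have h3 : ∀ i j : Fin 248, ∀ z : E8 A, kap (br (eb i : E8 A) (eb j)) z = kap (eb i) (br (eb j) z) := by
    intro i j z
    have := E8.hom_ext (f := kap (br (eb i : E8 A) (eb j))) (g := (kap (eb i)) ∘ₗ (brL (eb j)))
      (fun k => key i j k)
    exact LinearMap.congr_fun this z
  have h2 : ∀ i : Fin 248, ∀ y z : E8 A, kap (br (eb i : E8 A) y) z = kap (eb i) (br y z) := by
    intro i y z
    have := E8.hom_ext (f := (kap.flip z) ∘ₗ (brL (eb i : E8 A)))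
      (g := (kap (eb i : E8 A)) ∘ₗ (brL.flip z)) (fun j => h3 i j z)
    exact LinearMap.congr_fun this y
  have := E8.hom_ext (f := (kap.flip z) ∘ₗ (brL.flip y)) (g := (kap.flip (br y z) : E8 A →ₗ[A] A))
    (fun i => h2 i y z)
  exact LinearMap.congr_fun this x

theorem kap_br' (x y z : E8 A) : kap y (br x z) = - kap (br x y) z := by
  rw [br_skew x y, map_neg, LinearMap.neg_apply, neg_neg, kap_br]

theorem kap_map {A' : Type*} [CommRing A'] (φ : A →+* A') (x y : E8 A) :
    φ (kap x y) = kap (φ ∘ x : E8 A') (φ ∘ y) := by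
  simp only [kap_apply, map_sum, map_mul, map_intCast, Function.comp_apply]

theorem kap_mem {R : Type*} [CommRing R] [Algebra R A] (S : Subalgebra R A) {x y : E8 A}
    (hx : ∀ m, x m ∈ S) (hy : ∀ m, y m ∈ S) : kap x y ∈ S := by
  rw [kap_apply]
  refine S.sum_mem fun i _ => S.sum_mem fun j _ => ?_
  exact S.mul_mem (intCast_mem S _) (S.mul_mem (hx i) (hy j))

theorem kN_zdg {i j : Fin 248} (h : kN i j ≠ 0) : zdg i + zdg j = 0 := by
  have h1 := kN_wt i.2 j.2 h
  have a := zdN_three i.2
  have b := zdN_three j.2
  have ho := cd_cartan (i := 240) (by norm_num) (by norm_num)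
  have h2 := gsN_add i.2 j.2 (k := 240) (by norm_num) (by rw [ho]; exact h1)
  have c := zdN_three (i := 240) (by norm_num)
  have c' : zdN 240 = 0 := zdN_cartan (by norm_num) (by norm_num)
  unfold zdg
  omega

theorem kap_of_sup {a b : ℤ} (hab : a + b ≠ 0) {x y : E8 A} (hx : Sup zdg a x) (hy : Sup zdg b y) :
    kap x y = 0 := by
  rw [kap_apply]
  refine Finset.sum_eq_zero fun i _ => Finset.sum_eq_zero fun j _ => ?_
  by_cases h : kN i j = 0
  · rw [h, Int.cast_zero, zero_mul]
  · have h1 := kN_zdg h
    by_cases hi : zdg i = a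
    · rw [hy j (by omega), mul_zero, mul_zero]
    · rw [hx i hi, zero_mul, mul_zero]

/-- only the components of `x` in degree `-b` matter -/
theorem kap_congr {b : ℤ} {x x' y : E8 A} (hy : Sup zdg b y) (h : ∀ m, zdg m = -b → x m = x' m) :
    kap x y = kap x' y := by
  rw [kap_apply, kap_apply]
  refine Finset.sum_congr rfl fun i _ => Finset.sum_congr rfl fun j _ => ?_
  by_cases hk : kN i j = 0
  · rw [hk, Int.cast_zero, zero_mul, zero_mul]
  · have h1 := kN_zdg hk
    by_cases hj : zdg j = b
    · rw [h i (by omega)]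
    · simp [hy j hj]

end

section

variable {A : Type*} [CommRing A] [Algebra ℚ A]

theorem kap_pow (x : E8 A) (n : ℕ) : ∀ y z : E8 A,
    kap (((brL x) ^ n) y) z = (-1) ^ n * kap y (((brL x) ^ n) z) := by
  induction n with
  | zero => intro y z; simp
  | succ n ih =>
    intro y z
    have h := kap_br' x (((brL x) ^ n) y) z
    have h1 : ((brL x) ^ (n + 1)) y = br x (((brL x) ^ n) y) := by
      rw [pow_succ', Module.End.mul_apply, brL_apply]
    have h2 : ((brL x) ^ (n + 1)) z = ((brL x) ^ n) (br x z) := by
      rw [pow_succ, Module.End.mul_apply, brL_apply]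
    rw [h1, h2, ← neg_eq_iff_eq_neg.2 h, ih, pow_succ]
    ring

theorem neg_brL_pow (x z : E8 A) (n : ℕ) :
    ((brL (-x)) ^ n) z = ((-1 : A) ^ n) • ((brL x) ^ n) z := by
  induction n with
  | zero => simp
  | succ n ih =>
    rw [pow_succ', Module.End.mul_apply, ih, brL_apply, pow_succ' (brL x), Module.End.mul_apply,
      brL_apply, br_neg_left, br_smul_right, pow_succ, mul_neg_one, neg_smul]

theorem kap_ex_left (x y z : E8 A) : kap (ex x y) z = kap y (ex (-x) z) := by
  rw [ex_apply, ex_apply, map_sum, map_sum, LinearMap.sum_apply]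
  refine Finset.sum_congr rfl fun n _ => ?_
  rw [map_smul, map_smul, LinearMap.smul_apply, kap_pow, neg_brL_pow, map_smul, smul_eq_mul,
    smul_eq_mul, smul_eq_mul]

theorem kap_ex {x : E8 A} (hx : (brL x) ^ 7 = 0) (y z : E8 A) :
    kap (ex x y) (ex x z) = kap y z := by
  rw [kap_ex_left, ex_neg_ex hx]

end

end Pool.Agent.Licci.P
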