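import Pool.Agent.Work.MP_a98e4e_ag.P.Dsc
import Pool.Agent.Work.MP_a98e4e_ag.E.Defs

/-!
# Module P: construction of a cone point `p` of `e_8(R)` with components `f` (degree `3`) and
`ζ` (degree `2`)
-/

set_option linter.unusedSectionVars false

namespace Pool.Agent.Licci.P

open scoped BigOperators
open U (Sup)
open LicciCodimFour (chart mem_chart)
open RingTheory.Sequence

universe u v

/-- a linear map as a `1`-form -/
def o1 {R M N : Type*} [CommRing R] [AddCommGroup M] [Module R M] [AddCommGroup N] [Module R N]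
    (l : M →ₗ[R] N) : M [⋀^Fin 1]→ₗ[R] N := AlternatingMap.ofSubsingleton R M N (0 : Fin 1) l

theorem o1_apply {R M N : Type*} [CommRing R] [AddCommGroup M] [Module R M] [AddCommGroup N]
    [Module R N] (l : M →ₗ[R] N) (x : Fin 1 → M) : o1 l x = l (x 0) := rfl

section

variable {R : Type u} [CommRing R] [IsDomain R] [Algebra ℚ R] {K : Type v} [Field K] [Algebra R K]
  [Algebra ℚ K]

/-- degree `1` -/
theorem exists_p1 (hinj : Function.Injective (algebraMap R K)) {f : Vec R}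
    (hreg : HasReg (fL f) 6) (n₁ : Fin 8 → E8 K) (hs : ∀ i, f i ≠ 0 → Sup zdg (-1) (n₁ i))
    (hS : ∀ i, f i ≠ 0 → In (chart K (f i)) (n₁ i))
    (hZ : ∀ i j, f i ≠ 0 → f j ≠ 0 → br (n₁ i) (V3 (emL R K f)) = br (n₁ j) (V3 (emL R K f))) :
    ∃ p₁ : E8 R, Sup zdg 1 p₁ ∧ ∀ i, f i ≠ 0 → ∃ n₂ : E8 K, Sup zdg (-2) n₂ ∧
      In (chart K (f i)) n₂ ∧ up R K p₁ = q1 (V3 (emL R K f)) (n₁ i) n₂ := by
  set F : E8 K := V3 (emL R K f) with hF
  have hFs : Sup zdg 3 F := V3_sup _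
  have hFin : ∀ S : Subalgebra R K, In S F := fun S => by
    rw [hF, V3_em]
    exact In.up S _
  obtain ⟨i₀, hi₀⟩ := exists_ne_zero hreg
  let w : Fin 8 → E8 K := fun i => algebraMap ℚ K (1 / 2) • br (n₁ i) (br (n₁ i) F)
  have hws : ∀ i, f i ≠ 0 → Sup zdg 1 (w i) := fun i hi =>
    zsup_smul _ (zsup_br (b := 2) (by norm_num) (hs i hi) (zsup_br (by norm_num) (hs i hi) hFs))
  have hwS : ∀ i, f i ≠ 0 → In (chart K (f i)) (w i) := fun i hi =>
    In.smul (rat_mem _ _) ((hS i hi).br ((hS i hi).br (hFin _)))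
  have hww : ∀ i j, f i ≠ 0 → f j ≠ 0 → wedge (fL f) 3 (al3 R (w i)) = wedge (fL f) 3 (al3 R (w j)) := by
    intro i j hi hj
    have h1 := step_one (hZ i j hi hj)
    have h2 : w i - w j = br (algebraMap ℚ K (1 / 2) • br (n₁ i - n₁ j) (n₁ j)) F := by
      rw [br_smul_left, ← h1, smul_sub]
    have h3 : al3 R (w i) - al3 R (w j) =
        wedge (fL f) 2 (be2 R (algebraMap ℚ K (1 / 2) • br (n₁ i - n₁ j) (n₁ j))) := by
      rw [← al3_sub, h2, hF, al3_br]
    rw [← sub_eq_zero, ← map_sub, h3, wedge_wedge_self]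
  -- descend
  obtain ⟨C, hC⟩ := exists_descend (Algebra.linearMap R K) hinj (wedge (fL f) 3 (al3 R (w i₀)))
    (fun v => by
      obtain ⟨r, hr⟩ := exists_of_charts hinj hreg
        (x := wedge (fL f) 3 (al3 R (w i₀)) v) (fun i hi => by
          rw [hww i₀ i hi₀ hi]
          exact wedge_mem _ (al3_mem (hwS i hi)) v)
      exact ⟨r, hr.symm⟩)
  have hC4 : wedge (fL f) 4 C = 0 := by
    refine comp_injective (Algebra.linearMap R K) hinj ?_
    rw [← wedge_compRight, hC, wedge_wedge_self]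
    ext v
    simp
  obtain ⟨P3, hP3⟩ : ∃ η, wedge (fL f) 3 η = C := hreg.isCob 4 (by norm_num) C hC4
  obtain ⟨p₁, hp₁s, hp₁⟩ := al3_surj (K := K) P3
  have hal : al3 R (up R K p₁) = (Algebra.linearMap R K).compAlternatingMap P3 := by
    ext v
    exact hp₁ v
  refine ⟨p₁, hp₁s, fun i hi => ?_⟩
  have hδ : wedge (fL f) 3 (al3 R (up R K p₁ - w i)) = 0 := by
    rw [al3_sub, map_sub, hal, wedge_compRight, hP3, hC, hww i₀ i hi₀ hi, sub_self]
  have hfi : algebraMap R K (fL f (Pi.single i 1)) ≠ 0 := by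
    rw [fL_apply, dot_single]
    intro h
    exact hi (hinj (by rw [h, map_zero]))
  have hβ := eq_wedge_contr (fL f) (Pi.single i 1) 2 _ hδ hfi
  obtain ⟨n₂, h2s, h2b, h2S⟩ := be2_surj
    ((LinearMap.mulLeft R (algebraMap R K (fL f (Pi.single i 1)))⁻¹).compAlternatingMap
      (contr (Pi.single i 1) 2 (al3 R (up R K p₁ - w i))))
  have hkey : br n₂ F = up R K p₁ - w i := by
    have h1 : Sup zdg 1 (br n₂ F - (up R K p₁ - w i)) :=
      zsup_sub (zsup_br (by norm_num) h2s hFs) (zsup_sub (up_sup hp₁s) (hws i hi))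
    have h2 : al3 R (br n₂ F - (up R K p₁ - w i)) = 0 := by
      rw [al3_sub, hF, al3_br, h2b, hβ, sub_self]
    exact sub_eq_zero.1 (al3_inj h1 h2)
  refine ⟨n₂, h2s, ?_, ?_⟩
  · refine h2S _ fun v => ?_
    rw [LinearMap.compAlternatingMap_apply, LinearMap.mulLeft_apply, contr_apply]
    refine Subalgebra.mul_mem _ ?_ ?_
    · rw [fL_apply, dot_single] at hfi ⊢
      exact LicciCodimFour.inv_mem_chart (mul_inv_cancel₀ hfi)
    · exact al3_mem ((In.up _ _).sub (hwS i hi)) _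
  · unfold q1
    rw [hkey]
    change up R K p₁ = up R K p₁ - w i + w i
    rw [sub_add_cancel]

/-- degree `0` -/
theorem exists_p0 (hinj : Function.Injective (algebraMap R K)) {f : Vec R}
    (hreg : HasReg (fL f) 6) (n₁ n₂ : Fin 8 → E8 K) (hs : ∀ i, f i ≠ 0 → Sup zdg (-1) (n₁ i))
    (hs2 : ∀ i, f i ≠ 0 → Sup zdg (-2) (n₂ i))
    (hS : ∀ i, f i ≠ 0 → In (chart K (f i)) (n₁ i)) (hS2 : ∀ i, f i ≠ 0 → In (chart K (f i)) (n₂ i))
    (hZ : ∀ i j, f i ≠ 0 → f j ≠ 0 → br (n₁ i) (V3 (emL R K f)) = br (n₁ j) (V3 (emL R K f)))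
    (hQ : ∀ i j, f i ≠ 0 → f j ≠ 0 → q1 (V3 (emL R K f)) (n₁ i) (n₂ i) =
      q1 (V3 (emL R K f)) (n₁ j) (n₂ j)) :
    ∃ p₀ : E8 R, Sup zdg 0 p₀ ∧ ∀ i, f i ≠ 0 → ∃ n₃ : E8 K, Sup zdg (-3) n₃ ∧
      In (chart K (f i)) n₃ ∧
      up R K p₀ = br n₃ (V3 (emL R K f)) + q0 (V3 (emL R K f)) (n₁ i) (n₂ i) := by
  set F : E8 K := V3 (emL R K f) with hF
  have hFs : Sup zdg 3 F := V3_sup _
  have hFin : ∀ S : Subalgebra R K, In S F := fun S => by
    rw [hF, V3_em]
    exact In.up S _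
  obtain ⟨i₀, hi₀⟩ := exists_ne_zero hreg
  let w : Fin 8 → E8 K := fun i => q0 F (n₁ i) (n₂ i)
  have hws : ∀ i, f i ≠ 0 → Sup zdg 0 (w i) := fun i hi => q0_sup hFs (hs i hi) (hs2 i hi)
  have hwS : ∀ i, f i ≠ 0 → In (chart K (f i)) (w i) := fun i hi =>
    In.q0 (hFin _) (hS i hi) (hS2 i hi)
  -- the `1`-forms
  let θ : E8 K → (Vec R →ₗ[R] Vec K) := fun Y =>
    { toFun := fun x => tht Y (emL R K x)
      map_add' := fun x y => by rw [map_add, map_add]
      map_smul' := fun c x => by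
        have : emL R K (c • x) = algebraMap R K c • emL R K x := by
          rw [map_smul, algebraMap_smul]
        rw [this, map_smul, algebraMap_smul, RingHom.id_apply] }
  have hθ : ∀ Y x, θ Y x = tht Y (emL R K x) := fun _ _ => rfl
  have hθsub : ∀ Y Z, θ (Y - Z) = θ Y - θ Z := by
    intro Y Z
    refine LinearMap.ext fun x => ?_
    rw [LinearMap.sub_apply, hθ, hθ, hθ, map_sub, LinearMap.sub_apply]
  have honesub : ∀ a b : Vec R →ₗ[R] Vec K, o1 (a - b) = o1 a - o1 b := by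
    intro a b
    ext v
    rfl
  have hw1 : ∀ (a : Vec R →ₗ[R] Vec K) (v : Fin 2 → Vec R), wedge (fL f) 1 (o1 a) v =
      fL f (v 0) • a (v 1) - fL f (v 1) • a (v 0) := by
    intro a v
    rw [wedge_apply, Fin.sum_univ_two, o1_apply, o1_apply]
    simp [Fin.removeNth, sub_eq_add_neg]
  have hzero : ∀ u : Vec K, wedge (fL f) 1 (o1 ((fL f).smulRight u)) = 0 := by
    intro u
    ext v
    rw [hw1, LinearMap.smulRight_apply, LinearMap.smulRight_apply, smul_smul, smul_smul, mul_comm,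
      sub_self]
    rfl
  have hbr : ∀ c : E8 K, Sup zdg (-3) c → θ (br c F) = (fL f).smulRight (-(p3m c)) := by
    intro c hc
    refine LinearMap.ext fun x => ?_
    rw [hθ, eq_L3 hc, hF, tht_L3_V3, LinearMap.smulRight_apply, p3m_L3, dot_em, fL_apply, smul_neg,
      algebraMap_smul]
  have hww : ∀ i j, f i ≠ 0 → f j ≠ 0 →
      wedge (fL f) 1 (o1 (θ (w i))) = wedge (fL f) 1 (o1 (θ (w j))) := by
    intro i j hi hj
    obtain ⟨c, hc, hc'⟩ := step_two (hZ i j hi hj) (hQ i j hi hj)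
    have hcs : Sup zdg (-3) c := by
      rw [hc']
      have a1 := hs i hi
      have b1 := hs j hj
      have ab : Sup zdg (-2) (br (n₁ i - n₁ j) (n₁ j)) := zsup_br (by norm_num) (zsup_sub a1 b1) b1
      refine zsup_add (zsup_add ?_ ?_) ?_
      · exact zsup_br (a := -2) (by norm_num)
          (zsup_add (zsup_sub (hs2 i hi) (hs2 j hj)) (zsup_smul _ ab)) b1
      · exact zsup_smul _ (zsup_br (by norm_num) (zsup_add a1 b1) ab)
      · exact zsup_smul _ (zsup_sub (zsup_br (by norm_num) a1 (hs2 i hi))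
          (zsup_br (by norm_num) b1 (hs2 j hj)))
    rw [← sub_eq_zero, ← map_sub, ← honesub, ← hθsub]
    change wedge (fL f) 1 (o1 (θ (q0 F (n₁ i) (n₂ i) - q0 F (n₁ j) (n₂ j)))) = 0
    rw [hc, hbr c hcs, hzero]
  have hem := emL_injective (R := R) (K := K) hinj
  obtain ⟨C, hC⟩ := exists_descend (emL R K) hem (wedge (fL f) 1 (o1 (θ (w i₀))))
    (fun v => by
      have hk : ∀ k : Fin 8, ∃ r : R, wedge (fL f) 1 (o1 (θ (w i₀))) v k = algebraMap R K r := by
        intro k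
        refine exists_of_charts hinj hreg fun i hi => ?_
        rw [hww i₀ i hi₀ hi, hw1]
        refine Subalgebra.sub_mem _ ?_ ?_
        · exact Subalgebra.smul_mem _ (tht_mem (hwS i hi) _ _) _
        · exact Subalgebra.smul_mem _ (tht_mem (hwS i hi) _ _) _
      choose r hr using hk
      exact ⟨r, funext fun k => (hr k).symm⟩)
  have hC2 : wedge (fL f) 2 C = 0 := by
    refine comp_injective (emL R K) hem ?_
    rw [← wedge_compRight, hC, wedge_wedge_self]
    ext v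
    simp
  obtain ⟨P1, hP1⟩ : ∃ η, wedge (fL f) 1 η = C := by
    obtain ⟨rs, hlen, hrs, hmem⟩ := hreg
    exact koszul_exact' (fL f) rs (isWeaklyRegular_pi rs R hrs) hmem 2 (by omega) C hC2
  obtain ⟨N, hN⟩ : ∃ N : Vec R →ₗ[R] Vec R, P1 = o1 N :=
    ⟨(AlternatingMap.ofSubsingleton R (Vec R) (Vec R) (0 : Fin 1)).symm P1,
      ((AlternatingMap.ofSubsingleton R (Vec R) (Vec R) (0 : Fin 1)).apply_symm_apply P1).symm⟩
  obtain ⟨p₀, hp₀s, hp₀⟩ := tht_surj N
  have hθp : θ (up R K p₀) = (emL R K) ∘ₗ N := by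
    refine LinearMap.ext fun x => ?_
    rw [hθ, tht_em, hp₀]
    rfl
  refine ⟨p₀, hp₀s, fun i hi => ?_⟩
  set δ : E8 K := up R K p₀ - w i with hδdef
  have hδs : Sup zdg 0 δ := zsup_sub (up_sup hp₀s) (hws i hi)
  have hδ : wedge (fL f) 1 (o1 (θ δ)) = 0 := by
    rw [hδdef, hθsub, honesub, map_sub, hθp, ← hww i₀ i hi₀ hi, ← hC]
    have : o1 ((emL R K) ∘ₗ N) = (emL R K).compAlternatingMap (o1 N) := by
      ext v
      rfl
    rw [this, wedge_compRight, ← hN, hP1, sub_self]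
  have hfi : algebraMap R K (f i) ≠ 0 := by
    intro h
    exact hi (hinj (by rw [h, map_zero]))
  set φ : Vec K := (algebraMap R K (f i))⁻¹ • θ δ (Pi.single i 1) with hφ
  have hθδ : ∀ x, θ δ x = fL f x • φ := by
    intro x
    have h1 := congrArg (fun (g : (Vec R) [⋀^Fin 2]→ₗ[R] Vec K) => g ![x, Pi.single i 1]) hδ
    simp only [hw1, Matrix.cons_val_zero, Matrix.cons_val_one, AlternatingMap.zero_apply] at h1
    rw [fL_apply f (Pi.single i 1), dot_single, sub_eq_zero] at h1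
    rw [hφ, smul_comm, h1, ← algebraMap_smul K (f i), smul_smul, inv_mul_cancel₀ hfi, one_smul]
  refine ⟨L3 (-φ), L3_sup _, ?_, ?_⟩
  · have hφS : ∀ k, φ k ∈ chart K (f i) := fun k =>
      Subalgebra.mul_mem _ (LicciCodimFour.inv_mem_chart (mul_inv_cancel₀ hfi))
        (tht_mem ((In.up _ _).sub (hwS i hi)) _ _)
    intro m
    unfold L3
    rw [Finset.sum_apply]
    refine Subalgebra.sum_mem _ fun k _ => ?_
    rw [Pi.smul_apply, eb_apply]
    split_ifs
    · rw [smul_eq_mul, mul_one]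
      exact Subalgebra.neg_mem _ (hφS k)
    · rw [smul_zero]
      exact Subalgebra.zero_mem _
  · have h1 : Sup zdg 0 (br (L3 (-φ)) F - δ) :=
      zsup_sub (zsup_br (by norm_num) (L3_sup _) hFs) hδs
    have h2 : br (L3 (-φ)) F - δ = 0 := by
      refine tht_inj h1 fun k => ?_
      have h3 : θ (br (L3 (-φ)) F - δ) (Pi.single k 1) = 0 := by
        rw [hθsub, LinearMap.sub_apply, hθδ, hbr _ (L3_sup _), p3m_L3, neg_neg,
          LinearMap.smulRight_apply, sub_self]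
      rw [hθ, em_single] at h3
      exact h3
    rw [sub_eq_zero.1 h2, hδdef]
    change _ = up R K p₀ - w i + w i
    rw [sub_add_cancel]

/-- coefficients of `(e_i ∧ ζ) / f_i` -/
noncomputable def mu1 (K : Type v) [Field K] [Algebra R K] (f : Vec R) (ζ : Fin 8 → Fin 8 → R)
    (i a p q : Fin 8) : K :=
  (algebraMap R K (f i))⁻¹ * algebraMap R K ((if a = i then ζ p q else 0) -
    (if p = i then ζ a q else 0) + (if q = i then ζ a p else 0))

theorem w2_up (x : E8 R) (i j : Fin 8) : w2 (up R K x) i j = algebraMap R K (w2 x i j) := by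
  unfold w2
  rw [up_apply, map_mul, map_intCast]

theorem br_n1 (hinj : Function.Injective (algebraMap R K)) {f : Vec R} {ζ : Fin 8 → Fin 8 → R}
    (h0 : ∀ i, ζ i i = 0) (h1 : ∀ i j, ζ i j = - ζ j i) (hz : ∀ j, ∑ i, f i * ζ i j = 0)
    {i : Fin 8} (hi : f i ≠ 0) : br (M1 (mu1 K f ζ i)) (V3 (emL R K f)) =
      W2 (fun p q => algebraMap R K (ζ p q)) := by
  have hfi : algebraMap R K (f i) ≠ 0 := by
    intro h
    exact hi (hinj (by rw [h, map_zero]))
  have hs : Sup zdg 2 (br (M1 (mu1 K f ζ i)) (V3 (emL R K f))) :=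
    zsup_br (by norm_num) (M1_sup _) (V3_sup _)
  have e1 := eq_V3_W2 (Y := br (M1 (mu1 K f ζ i)) (V3 (emL R K f))) (fun m hm => hs m (by
    change zdg m ≠ _
    omega))
  have e2 : p3 (br (M1 (mu1 K f ζ i)) (V3 (emL R K f))) = 0 := by
    funext a
    refine hs _ ?_
    change zdg (ix (a : ℕ)) ≠ _
    rw [zdg_lt8]
    norm_num
  have e3 : V3 (0 : Vec K) = 0 := by
    rw [V3_eq_sum]
    simp
  rw [e2, e3, zero_add] at e1
  rw [e1]
  congr 1
  funext p q
  have hM : Le zdg (-1) (M1 (mu1 K f ζ i)) := zsup_le (M1_sup _)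
  rw [w2_m1 hM]
  have e4 : ∀ a, t1 (M1 (mu1 K f ζ i)) a p q = mu1 K f ζ i a p q := by
    intro a
    refine t1_M1 _ ?_ ?_ ?_ a p q
    · intro a q
      unfold mu1
      rw [h0 a]
      simp
    · intro a p q
      unfold mu1
      rw [← mul_neg, ← map_neg, h1 a p]
      congr 2
      split_ifs <;> ring
    · intro a p q
      unfold mu1
      rw [← mul_neg, ← map_neg, h1 p q]
      congr 2
      split_ifs <;> ring
  simp only [e4, V3_apply_ix, emL_apply, mu1]
  have e5 : ∀ a : Fin 8, (algebraMap R K (f i))⁻¹ * algebraMap R K ((if a = i then ζ p q else 0) -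
      (if p = i then ζ a q else 0) + (if q = i then ζ a p else 0)) * algebraMap R K (f a) =
      (algebraMap R K (f i))⁻¹ * algebraMap R K ((if a = i then f a * ζ p q else 0) -
      (if p = i then f a * ζ a q else 0) + (if q = i then f a * ζ a p else 0)) := by
    intro a
    rw [mul_assoc, ← map_mul]
    congr 2
    split_ifs <;> ring
  rw [Finset.sum_congr rfl fun a _ => e5 a, ← Finset.mul_sum, ← map_sum, Finset.sum_add_distrib,
    Finset.sum_sub_distrib, Finset.sum_ite_eq', if_pos (Finset.mem_univ _)]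
  have e6 : ∀ (c : Prop) [Decidable c] (g : Fin 8), (∑ a : Fin 8, if c then f a * ζ a g else 0) = 0 := by
    intro c _ g
    split_ifs
    · exact hz g
    · simp
  rw [e6, e6, sub_zero, add_zero, map_mul, ← mul_assoc, inv_mul_cancel₀ hfi, one_mul]

theorem cone_ex {F n : E8 K} (hn : Le zdg (-1) n)
    (hF : ∀ x, br F (br F x) = (-2 * kap F x) • F) (x : E8 K) :
    br (ex n F) (br (ex n F) x) = (-2 * kap (ex n F) x) • ex n F := by
  have h7 := ad_nil_neg hn
  have hx : x = ex n (ex (-n) x) := (ex_ex_neg h7 x).symm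
  rw [hx, ← ex_br h7, ← ex_br h7, hF, map_smul, kap_ex h7]

/-- a cone point of `e_8(R)` with given components `f` and `ζ` of degree `3` and `2` -/
theorem exists_cone' (hinj : Function.Injective (algebraMap R K)) (f : Vec R)
    (hreg : HasReg (fL f) 6) (ζ : Fin 8 → Fin 8 → R)
    (h0 : ∀ i, ζ i i = 0) (h1 : ∀ i j, ζ i j = - ζ j i) (hz : ∀ j, ∑ i, f i * ζ i j = 0) :
    ∃ p : E8 R, p3 p = f ∧ (∀ i j, w2 p i j = ζ i j) ∧
      (∀ x, br p (br p x) = (-2 * kap p x) • p) ∧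
      ∀ i, f i ≠ 0 → ∃ n : E8 K, Le zdg (-1) n ∧ (∀ m, n m ∈ chart K (f i)) ∧
        (fun m => algebraMap R K (p m)) = ex n (V3 fun j => algebraMap R K (f j)) := by
  set F : E8 K := V3 (emL R K f) with hF
  have hFs : Sup zdg 3 F := V3_sup _
  have hFin : ∀ S : Subalgebra R K, In S F := fun S => by
    rw [hF, V3_em]
    exact In.up S _
  obtain ⟨i₀, hi₀⟩ := exists_ne_zero hreg
  let n₁ : Fin 8 → E8 K := fun i => M1 (mu1 K f ζ i)
  have hs : ∀ i, f i ≠ 0 → Sup zdg (-1) (n₁ i) := fun i _ => M1_sup _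
  have hb : ∀ i, f i ≠ 0 → br (n₁ i) F = W2 (fun p q => algebraMap R K (ζ p q)) :=
    fun i hi => br_n1 hinj h0 h1 hz hi
  have hS : ∀ i, f i ≠ 0 → In (chart K (f i)) (n₁ i) := by
    intro i hi m
    have hfi : algebraMap R K (f i) ≠ 0 := by
      intro h
      exact hi (hinj (by rw [h, map_zero]))
    change M1 (mu1 K f ζ i) m ∈ _
    rw [M1_apply]
    refine Subalgebra.sum_mem _ fun a _ => Subalgebra.sum_mem _ fun b _ =>
      Subalgebra.sum_mem _ fun c _ => ?_
    split_ifs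
    · refine Subalgebra.mul_mem _ (intCast_mem _ _) (Subalgebra.mul_mem _ ?_ (Subalgebra.algebraMap_mem _ _))
      exact LicciCodimFour.inv_mem_chart (mul_inv_cancel₀ hfi)
    · exact Subalgebra.zero_mem _
  have hZ : ∀ i j, f i ≠ 0 → f j ≠ 0 → br (n₁ i) F = br (n₁ j) F := fun i j hi hj => by
    rw [hb i hi, hb j hj]
  obtain ⟨p₁, hp₁s, hp₁⟩ := exists_p1 hinj hreg n₁ hs hS hZ
  choose! n₂ hs2 hS2 hq1 using hp₁
  have hQ : ∀ i j, f i ≠ 0 → f j ≠ 0 → q1 F (n₁ i) (n₂ i) = q1 F (n₁ j) (n₂ j) :=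
    fun i j hi hj => by rw [← hq1 i hi, ← hq1 j hj]
  obtain ⟨p₀, hp₀s, hp₀⟩ := exists_p0 hinj hreg n₁ n₂ hs hs2 hS hS2 hZ hQ
  choose! n₃ hs3 hS3 hq0 using hp₀
  let n : Fin 8 → E8 K := fun i => n₁ i + n₂ i + n₃ i
  have hn : ∀ i, f i ≠ 0 → Le zdg (-1) (n i) := fun i hi =>
    zle_add (zle_add (zsup_le (hs i hi)) (zle_mono (by norm_num) (zsup_le (hs2 i hi))))
      (zle_mono (by norm_num) (zsup_le (hs3 i hi)))
  have hnS : ∀ i, f i ≠ 0 → In (chart K (f i)) (n i) := fun i hi =>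
    ((hS i hi).add (hS2 i hi)).add (hS3 i hi)
  have hcomp : ∀ i, f i ≠ 0 → ∃ r : E8 K, Le zdg (-1) r ∧ ex (n i) F =
      F + W2 (fun p q => algebraMap R K (ζ p q)) + up R K p₁ + up R K p₀ + r := by
    intro i hi
    obtain ⟨r, hr, hr'⟩ := ex_comp hFs (hs i hi) (hs2 i hi) (hs3 i hi)
    exact ⟨r, hr, by rw [hr', hb i hi, ← hq1 i hi, ← hq0 i hi]⟩
  have hge : ∀ i, f i ≠ 0 → ∀ m, 0 ≤ zdg m → ex (n i) F m =
      (F + W2 (fun p q => algebraMap R K (ζ p q)) + up R K p₁ + up R K p₀) m := by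
    intro i hi m hm
    obtain ⟨r, hr, hr'⟩ := hcomp i hi
    rw [hr', Pi.add_apply, hr m (by omega), add_zero]
  have hcone : ∀ i, f i ≠ 0 → ∀ x, br (ex (n i) F) (br (ex (n i) F) x) =
      (-2 * kap (ex (n i) F) x) • ex (n i) F := fun i hi x => cone_ex (hn i hi) (V3_cone _) x
  have htop : ∀ i, f i ≠ 0 → ∀ a : Fin 8, ex (n i) F (ix (a : ℕ)) = algebraMap R K (f a) := by
    intro i hi a
    have z3 : zdg (ix (a : ℕ)) = 3 := zdg_lt8 a
    rw [hge i hi _ (by rw [z3]; norm_num)]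
    simp only [Pi.add_apply]
    rw [W2_sup _ _ (by change zdg (ix (a : ℕ)) ≠ 2; rw [z3]; norm_num),
      up_sup hp₁s _ (by change zdg (ix (a : ℕ)) ≠ 1; rw [z3]; norm_num),
      up_sup hp₀s _ (by change zdg (ix (a : ℕ)) ≠ 0; rw [z3]; norm_num), hF, V3_apply_ix, emL_apply]
    ring
  have hf0 : algebraMap R K (f i₀) ≠ 0 := by
    intro h
    exact hi₀ (hinj (by rw [h, map_zero]))
  have heq : ∀ i, f i ≠ 0 → ex (n i₀) F = ex (n i) F := fun i hi =>
    cone_unique (hcone i₀ hi₀) (hcone i hi)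
      (fun m hm => by rw [hge i₀ hi₀ m hm, hge i hi m hm]) i₀
      (by rw [htop i₀ hi₀]; exact isUnit_iff_ne_zero.2 hf0)
  have hch : ∀ m, ∃ r : R, ex (n i₀) F m = algebraMap R K r := by
    intro m
    refine exists_of_charts hinj hreg fun i hi => ?_
    rw [heq i hi]
    exact ex_mem _ (hnS i hi) (hFin _) m
  choose p hp using hch
  have hup : up R K p = ex (n i₀) F := funext fun m => (hp m).symm
  have hupinj : ∀ x y : E8 R, up R K x = up R K y → x = y := fun x y h =>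
    funext fun m => hinj (congrFun h m)
  have hsm : ∀ (c : R) (x : E8 R), up R K (c • x) = algebraMap R K c • up R K x := by
    intro c x
    funext m
    rw [up_apply, Pi.smul_apply, Pi.smul_apply, up_apply, smul_eq_mul, smul_eq_mul, map_mul]
  refine ⟨p, ?_, ?_, ?_, ?_⟩
  · funext a
    apply hinj
    change algebraMap R K (p (ix (a : ℕ))) = _
    rw [← hp, htop i₀ hi₀]
  · intro i j
    apply hinj
    rw [← w2_up (K := K), hup]
    have e : ∀ i j : Fin 8, i < j → w2 (ex (n i₀) F) i j = algebraMap R K (ζ i j) := by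
      intro i j hij
      have z2 : zdg (i2 i j) = 2 := zdg_i2 i j hij
      unfold w2
      rw [ep2_of_lt hij, Int.cast_one, one_mul, hge i₀ hi₀ _ (by rw [z2]; norm_num)]
      simp only [Pi.add_apply]
      rw [hFs _ (by change zdg (i2 i j) ≠ 3; rw [z2]; norm_num), W2_apply_i2 _ hij,
        up_sup hp₁s _ (by change zdg (i2 i j) ≠ 1; rw [z2]; norm_num),
        up_sup hp₀s _ (by change zdg (i2 i j) ≠ 0; rw [z2]; norm_num)]
      ring
    rcases lt_trichotomy i j with h | h | h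
    · exact e i j h
    · subst h
      rw [w2_self, h0, map_zero]
    · rw [w2_swap, e j i h, h1 i j, map_neg]
  · intro x
    apply hupinj
    rw [up_br, up_br, hsm, map_mul, up_kap, hup, hcone i₀ hi₀, map_neg, map_ofNat]
  · intro i hi
    exact ⟨n i, hn i hi, hnS i hi, hup.trans (heq i hi)⟩

end

end Pool.Agent.Licci.P
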